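import Pool.Agent.Run7.h908.PL.S0
import Pool.Agent.Run7.h303.PL.Base
import Pool.Agent.Run7.h286.PL.StmM

/-!
# Project PRL, extension M: piece NTM (helper711)

All exponential moments of the dimension are bounded in the natural ordering.
-/

set_option autoImplicit false
set_option linter.all false

open Polynomial IsDedekindDomain Filter
open scoped Classical

namespace Run7.h711.PL

open Pool.Agent.N874.PP (Ov Ev Sq1)
open Pool.Agent.N352.PJ (IsGen Crd LocIm SelZero Fam GoodR Ht dsc)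
open Run7.h875.TS (chi cd IsPC GSq irrD dg NRs uT sqf prD sqL sz Tr mem_prD prD_mul mem_irrD prod_prD
  mul_div_of_dvd mul_div_self' ndvd_div cls_iff sqr_mul eq_of_dvd)
open Run7.h784.TG
open Run7.h286.PL
open Run7.h908.PL (p1 p2 p3 sq_mul_iff dg_prD selG_congr selG_cls)
open Run7.h303.PL (mem_sqF q_three)

/-- Copy of `Run7.h68.TG.exists_NRs2` (helper68). -/
theorem exists_NRs3 (k : Type) [Field k] [Finite k] (h2 : (2 : k) ≠ 0) :
    ∃ g : k[X] → k[X], NRs g := by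
  have h : ∀ P : k[X], Irreducible P → ∃ y : k[X], ∀ z : k[X], ¬ P ∣ z ^ 2 - y := by
    intro P hP
    haveI : Fact (Irreducible P) := ⟨hP⟩
    haveI : Finite (AdjoinRoot P) := by
      haveI : Module.Finite k (AdjoinRoot P) := (AdjoinRoot.powerBasis hP.ne_zero).finite
      exact Module.finite_of_finite k
    haveI := Fintype.ofFinite (AdjoinRoot P)
    have h2' : ringChar (AdjoinRoot P) ≠ 2 := by
      intro h2'
      have h3 : ((2 : ℕ) : AdjoinRoot P) = 0 := by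
        rw [← h2']
        exact ringChar.Nat.cast_ringChar
      have h4 : algebraMap k (AdjoinRoot P) 2 = 0 := by
        rw [map_ofNat]
        exact_mod_cast h3
      exact h2 ((map_eq_zero _).1 h4)
    obtain ⟨y, hy⟩ := FiniteField.exists_nonsquare h2'
    obtain ⟨y, rfl⟩ := AdjoinRoot.mk_surjective y
    refine ⟨y, fun z hz => hy ⟨AdjoinRoot.mk P z, ?_⟩⟩
    rw [← map_mul, eq_comm, AdjoinRoot.mk_eq_mk, ← pow_two]
    exact hz
  choose! g hg using h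
  exact ⟨g, hg⟩

section sel

variable {k K L O : Type} [Field k] [Finite k] [Field K] [Algebra k[X] K]
  [IsFractionRing k[X] K]
  [Field L] [Algebra K L] [Algebra k[X] L] [IsScalarTower k[X] K L] [CommRing O]
  [IsDedekindDomain O] [Algebra O L] [IsFractionRing O L] [Algebra k[X] O]
  [IsScalarTower k[X] O L] [IsIntegralClosure O k[X] L] {g N : ℕ} {r : k[X]} {f : k[X][X]} {θ : L}

theorem av_nn (nrs : k[X] → k[X]) {y : ℝ} (hy : 1 ≤ y) (S : Finset k[X]) :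
    0 ≤ av O K f θ nrs (fun d => y ^ d) S := by
  unfold av
  have : (0 : ℝ) ≤ y := by linarith
  positivity

/-- One prime, upper bound. -/
theorem lemA (hTRB : P_TRB) (hLSA : P_LSA) (hCLS : P_CLSU) (hf : Fm g N r f) (hgen : IsGen g K f θ)
    {nrs : k[X] → k[X]} (hnrs : NRs nrs) :
    ∃ C₀ : ℕ, ∀ y : ℝ, 1 ≤ y → ∀ D : k[X], D.Monic → Squarefree D → IsCoprime D (dsc g f) →
      ∀ m : ℕ, 0 < m →
      ∑ Q ∈ (irrD k m).filter (fun Q => ¬ Q ∣ D ∧ ¬ Q ∣ dsc g f), y ^ dimS O K f θ (D * Q) ≤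
        y ^ (2 * g) * av O K f θ nrs (fun d => y ^ d) (prD D) *
          ((Nat.card k : ℝ) ^ m / m + 2 ^ (prD D).card * (C₀ * (1 + D.natDegree) *
            √((Nat.card k : ℝ) ^ m))) := by
  obtain ⟨C₀, hLSA⟩ := hLSA k hf.two
  have hTRB1 := (hTRB k K L O g N r f θ hf hgen).1
  refine ⟨C₀, ?_⟩
  intro y hy D hD hsf hcop m hm
  have hy0 : (0 : ℝ) ≤ y := by linarith
  set S : Finset k[X] := prD D with hSdef
  have hD0 : D ≠ 0 := hD.ne_zero
  have hmem : ∀ P, P ∈ S ↔ P.Monic ∧ Irreducible P ∧ P ∣ D := fun P => mem_prD hD0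
  have hSd : ∀ P ∈ S, P.Monic ∧ Irreducible P ∧ ¬ P ∣ dsc g f := by
    intro P hP
    obtain ⟨h1, h2, h3⟩ := (hmem P).1 hP
    exact ⟨h1, h2, fun h => h2.not_isUnit (hcop.isUnit_of_dvd' h3 h)⟩
  have hnd : ∀ P ∈ S, ¬ P ∣ D / P := fun P hP => by
    obtain ⟨h1, h2, h3⟩ := (hmem P).1 hP
    exact ndvd_div h2 hsf h3
  have hnrsd : ∀ P : k[X], Irreducible P → ¬ P ∣ nrs P := by
    intro P hP h
    apply hnrs P hP 0
    rw [show (0 : k[X]) ^ 2 - nrs P = - nrs P by ring]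
    exact (dvd_neg).2 h
  have hgT : ∀ T : Finset k[X], GoodT g f S (uT nrs T) := by
    intro T
    refine ⟨fun P hP => (hSd P hP).1, fun P hP => (hSd P hP).2.1, fun P hP => (hSd P hP).2.2,
      fun P hP h => ?_⟩
    unfold uT at h
    split_ifs at h
    · exact hnrsd P (hSd P hP).2.1 h
    · exact (hSd P hP).2.1.not_isUnit (isUnit_of_dvd_one h)
  set A : Finset k[X] := (irrD k m).filter (fun Q => ¬ Q ∣ D ∧ ¬ Q ∣ dsc g f) with hA
  have hmA : ∀ Q, Q ∈ A ↔ (Q.Monic ∧ Irreducible Q ∧ Q.natDegree = m) ∧ ¬ Q ∣ D ∧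
      ¬ Q ∣ dsc g f := by
    intro Q
    rw [hA, Finset.mem_filter, mem_irrD]
  set τ : k[X] → Finset k[X] := fun Q => S.filter fun P => ¬ ∃ z : k[X], P ∣ z ^ 2 - (D / P) * Q with hτ
  have hτS : ∀ Q, τ Q ⊆ S := fun Q => Finset.filter_subset _ _
  have hPQ : ∀ Q ∈ A, ∀ P ∈ S, ¬ P ∣ Q := by
    intro Q hQ P hP h
    obtain ⟨⟨q1, q2, -⟩, q3, -⟩ := (hmA Q).1 hQ
    obtain ⟨h1, h2, h3⟩ := (hmem P).1 hP
    have := eq_of_dvd h1 h2 q1 q2 h
    exact q3 (this ▸ h3)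
  have hval : ∀ Q ∈ A, dimS O K f θ (D * Q) ≤ ld (SelG O K f θ S (uT nrs (τ Q))) + 2 * g := by
    intro Q hQ
    obtain ⟨⟨q1, q2, -⟩, q4, q5⟩ := (hmA Q).1 hQ
    have hQS : Q ∉ S := fun h => q4 ((hmem Q).1 h).2.2
    have hgood : GoodT g f S (fun P => D / P * Q) := by
      refine ⟨fun P hP => (hSd P hP).1, fun P hP => (hSd P hP).2.1, fun P hP => (hSd P hP).2.2,
        fun P hP h => ?_⟩
      rcases (hSd P hP).2.1.prime.dvd_or_dvd h with h1 | h1
      · exact hnd P hP h1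
      · exact hPQ Q hQ P hP h1
    have e1 : dimS O K f θ (D * Q) = ld (SelG O K f θ (insert Q S)
        (Function.update (fun P => D / P * Q) Q D)) := by
      unfold dimS
      rw [prD_mul hD0 q1 q2]
      congr 1
      refine selG_congr fun P hP => ?_
      rw [Finset.mem_insert] at hP
      by_cases hPQ' : P = Q
      · rw [hPQ', Function.update_self, mul_div_self' q2.ne_zero]
      · rw [Function.update_of_ne hPQ']
        have hPS := hP.resolve_left hPQ'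
        obtain ⟨h1, h2, h3⟩ := (hmem P).1 hPS
        exact mul_div_of_dvd h2.ne_zero h3
    rw [e1]
    refine (hTRB1 S _ hgood Q q1 q2 hQS q5 D q4).trans (le_of_eq ?_)
    congr 2
    refine selG_cls hCLS hf hgen hgood (hgT _) fun P hP => ?_
    unfold uT
    by_cases hPT : P ∈ τ Q
    · rw [if_pos hPT]
      rw [hτ, Finset.mem_filter] at hPT
      constructor
      · intro h; exact absurd h hPT.2
      · rintro ⟨z, hz⟩; exact absurd hz (hnrs P (hSd P hP).2.1 z)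
    · rw [if_neg hPT]
      rw [hτ, Finset.mem_filter, not_and, not_not] at hPT
      constructor
      · intro _; exact ⟨1, by simp⟩
      · intro _; exact hPT hP
  set ψ : Finset k[X] → ℝ := fun T => y ^ (ld (SelG O K f θ S (uT nrs T))) with hψ
  have hψ0 : ∀ T, 0 ≤ ψ T := fun T => pow_nonneg hy0 _
  have hsum : ∑ Q ∈ A, y ^ (dimS O K f θ (D * Q)) ≤
      ∑ T ∈ S.powerset, ((A.filter fun Q => τ Q = T).card : ℝ) * (y ^ (2 * g) * ψ T) := by
    have h0 : ∑ Q ∈ A, y ^ (dimS O K f θ (D * Q)) ≤ ∑ Q ∈ A, y ^ (2 * g) * ψ (τ Q) := by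
      refine Finset.sum_le_sum fun Q hQ => ?_
      refine (pow_le_pow_right₀ hy (hval Q hQ)).trans (le_of_eq ?_)
      rw [pow_add, mul_comm]
    refine h0.trans (le_of_eq ?_)
    rw [← Finset.sum_fiberwise_of_maps_to (g := τ) (t := S.powerset)
        (fun Q _ => Finset.mem_powerset.2 (hτS Q))]
    refine Finset.sum_congr rfl fun T _ => ?_
    have h1 : ∀ Q ∈ A.filter (fun Q => τ Q = T), y ^ (2 * g) * ψ (τ Q) = y ^ (2 * g) * ψ T := by
      intro Q hQ
      rw [(Finset.mem_filter.1 hQ).2]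
    rw [Finset.sum_congr rfl h1, Finset.sum_const, nsmul_eq_mul]
  have hcount : ∀ T ∈ S.powerset,
      ((A.filter fun Q => τ Q = T).card : ℝ) ≤ (1 / 2) ^ S.card * (Nat.card k : ℝ) ^ m / m +
        C₀ * (1 + D.natDegree) * √((Nat.card k : ℝ) ^ m) := by
    intro T hT
    rw [Finset.mem_powerset] at hT
    have h1 := hLSA S (fun P => (∃ z : k[X], P ∣ z ^ 2 - D / P) ↔ P ∉ T)
      (fun P hP => ⟨(hSd P hP).1, (hSd P hP).2.1⟩) m hm
    rw [dg_prD hD hsf] at h1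
    refine le_trans ?_ h1
    have h2 : (A.filter fun Q => τ Q = T) ⊆ (irrD k m).filter fun Q =>
        Q ∉ S ∧ ∀ P ∈ S, (∃ z : k[X], P ∣ z ^ 2 - Q) ↔
          ((∃ z : k[X], P ∣ z ^ 2 - D / P) ↔ P ∉ T) := by
      intro Q
      rw [Finset.mem_filter, hmA, Finset.mem_filter, mem_irrD]
      rintro ⟨⟨q1, q3, q4⟩, q5⟩
      refine ⟨q1, fun h => q3 ((hmem Q).1 h).2.2, fun P hP => ?_⟩
      have hQA : Q ∈ A := (hmA Q).2 ⟨q1, q3, q4⟩
      have h3 := sq_mul_iff (hSd P hP).2.1 (hnd P hP) (hPQ Q hQA P hP)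
      have h4 : P ∉ T ↔ ∃ z : k[X], P ∣ z ^ 2 - (D / P) * Q := by
        rw [← q5, hτ, Finset.mem_filter, not_and, not_not]
        exact ⟨fun h => h hP, fun h _ => h⟩
      rw [h4, h3]
      exact p1 _ _
    have h5 := Finset.card_le_card h2
    have h6 : ((A.filter fun Q => τ Q = T).card : ℝ) ≤ (((irrD k m).filter fun Q =>
        Q ∉ S ∧ ∀ P ∈ S, (∃ z : k[X], P ∣ z ^ 2 - Q) ↔
          ((∃ z : k[X], P ∣ z ^ 2 - D / P) ↔ P ∉ T)).card : ℝ) := by exact_mod_cast h5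
    refine h6.trans (le_of_eq ?_)
    congr!
  refine hsum.trans ?_
  have h3 : ∀ T ∈ S.powerset, ((A.filter fun Q => τ Q = T).card : ℝ) * (y ^ (2 * g) * ψ T) ≤
      ((1 / 2) ^ S.card * (Nat.card k : ℝ) ^ m / m +
        C₀ * (1 + D.natDegree) * √((Nat.card k : ℝ) ^ m)) * (y ^ (2 * g) * ψ T) := by
    intro T hT
    exact mul_le_mul_of_nonneg_right (hcount T hT) (mul_nonneg (pow_nonneg hy0 _) (hψ0 T))
  refine (Finset.sum_le_sum h3).trans (le_of_eq ?_)
  unfold av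
  rw [← Finset.mul_sum, ← Finset.mul_sum]
  have h4 : ((1 / 2 : ℝ)) ^ S.card * 2 ^ S.card = 1 := by
    rw [← mul_pow]; norm_num
  have h6 : ∀ a b c d : ℝ, a * b = 1 → a * c / m + d = a * (c / m + b * d) := by
    intro a b c d h
    rw [mul_add, ← mul_assoc a b d, h, one_mul, mul_div_assoc]
  rw [h6 _ _ _ _ h4]
  ring

/-- The trivial bound for `dimS`. -/
theorem dimS_le (hTRB : P_TRB) (hf : Fm g N r f) (hgen : IsGen g K f θ) :
    ∃ C₁ : ℕ, ∀ D : k[X], D.Monic → Squarefree D → IsCoprime D (dsc g f) →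
      dimS O K f θ D ≤ C₁ + 2 * g * (prD D).card := by
  obtain ⟨-, C₁, h⟩ := hTRB k K L O g N r f θ hf hgen
  refine ⟨C₁, fun D hD hsf hcop => h _ _ ⟨?_, ?_, ?_, ?_⟩⟩
  · intro P hP; exact ((mem_prD hD.ne_zero).1 hP).1
  · intro P hP; exact ((mem_prD hD.ne_zero).1 hP).2.1
  · intro P hP h
    obtain ⟨h1, h2, h3⟩ := (mem_prD hD.ne_zero).1 hP
    exact h2.not_isUnit (hcop.isUnit_of_dvd' h3 h)
  · intro P hP
    obtain ⟨h1, h2, h3⟩ := (mem_prD hD.ne_zero).1 hP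
    exact ndvd_div h2 hsf h3

end sel

section real

/-- Large `m`: `x log (m + x) ⌈2 (c + (x + 2) log (m + x))⌉ ≤ m / 2`. -/
theorem ev_log (x : ℕ) (c : ℝ) : ∀ᶠ m : ℕ in atTop,
    (x : ℝ) * Real.log ((m : ℝ) + x) * (2 * (c + (x + 2) * Real.log ((m : ℝ) + x)) + 1) ≤ (m : ℝ) / 2 := by
  have h1 : (fun t : ℝ => Real.log t ^ 2) =o[atTop] (fun t : ℝ => t) :=
    Real.isLittleO_pow_log_id_atTop
  have h1' : (fun t : ℝ => Real.log t) =o[atTop] (fun t : ℝ => t) :=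
    Real.isLittleO_log_id_atTop
  have h2 : (fun t : ℝ => (x : ℝ) * (2 * (x + 2)) * Real.log t ^ 2 + (x : ℝ) * (2 * c + 1) * Real.log t)
      =o[atTop] (fun t : ℝ => t) := (h1.const_mul_left _).add (h1'.const_mul_left _)
  have h3 := h2.bound (show (0 : ℝ) < 1 / 4 by norm_num)
  have h4 : Tendsto (fun m : ℕ => (m : ℝ) + x) atTop atTop :=
    tendsto_atTop_add_const_right _ _ tendsto_natCast_atTop_atTop
  have h5 := h4.eventually h3
  filter_upwards [h5, eventually_ge_atTop x] with m hm hx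
  rw [Real.norm_eq_abs, Real.norm_eq_abs] at hm
  have h6 := le_of_abs_le hm
  have hx' : (x : ℝ) ≤ m := by exact_mod_cast hx
  have h7 : |(m : ℝ) + x| = m + x := abs_of_nonneg (by positivity)
  rw [h7] at h6
  calc _ = (x : ℝ) * (2 * (x + 2)) * Real.log (m + x) ^ 2 + (x : ℝ) * (2 * c + 1) * Real.log (m + x) := by
        ring
    _ ≤ 1 / 4 * (m + x) := h6
    _ ≤ m / 2 := by linarith

/-- The size of the large primes. -/
theorem big_pr {q : ℝ} (hq : 3 ≤ q) {c z : ℝ} (hc : 0 < c) (hz : 0 < z) (a n : ℕ)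
    (h : 2 * (Real.log c + a * Real.log z) ≤ n) : c * z ^ a ≤ √(q ^ n) := by
  have hq0 : 0 < q := by linarith
  rw [Real.le_sqrt (by positivity) (by positivity)]
  have h1 : Real.exp n ≤ q ^ n := by
    rw [← Real.exp_one_pow n]
    exact pow_le_pow_left₀ (Real.exp_pos _).le (by linarith [Real.exp_one_lt_three]) n
  refine le_trans ?_ h1
  have h2 : c * z ^ a = Real.exp (Real.log c + a * Real.log z) := by
    rw [Real.exp_add, Real.exp_log hc, ← Real.log_pow, Real.exp_log (by positivity)]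
  rw [h2, ← Real.exp_nat_mul]
  exact Real.exp_le_exp.2 (by push_cast; linarith)

theorem exp_W {m x : ℕ} (hx1 : 1 ≤ x) :
    Real.exp (x * Real.log ((m : ℝ) + x)) = ((m : ℝ) + x) ^ x := by
  have hx1' : (1 : ℝ) ≤ x := by exact_mod_cast hx1
  have : (0 : ℝ) ≤ m := Nat.cast_nonneg _
  have h : (0 : ℝ) < (m : ℝ) + x := by linarith
  rw [← Real.log_pow, Real.exp_log (pow_pos h _)]

end real

section parts

variable {k : Type} [Field k] [Finite k]

theorem part1 (hOMG : P_OMG) (h2 : (2 : k) ≠ 0) {B : k[X]} (hB0 : B ≠ 0) {y : ℝ} (hy : 1 ≤ y)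
    (d : k[X] → ℕ) (C₁ g : ℕ)
    (hd : ∀ D : k[X], D.Monic → Squarefree D → IsCoprime D B → d D ≤ C₁ + 2 * g * (prD D).card)
    (x : ℕ) (hx1 : 1 ≤ x) (hxe : Real.exp 1 * y ^ (2 * g) ≤ x) (m : ℕ) :
    ∑ D ∈ (sqF B m).filter (fun D => x * Real.log ((m : ℝ) + x) ≤ ((prD D).card : ℝ)), y ^ d D ≤
      y ^ C₁ * (Nat.card k : ℝ) ^ m := by
  have hy0 : 0 < y := by linarith
  have hO := hOMG k B h2 hB0 x hx1 m
  have heW := exp_W (m := m) hx1
  generalize (Nat.card k : ℝ) ^ m = qm at hO ⊢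
  generalize hW : (x : ℝ) * Real.log ((m : ℝ) + x) = W at heW ⊢
  have hE : 0 < Real.exp (- W) := Real.exp_pos _
  calc ∑ D ∈ (sqF B m).filter (fun D => W ≤ ((prD D).card : ℝ)), y ^ d D
      ≤ ∑ D ∈ (sqF B m).filter (fun D => W ≤ ((prD D).card : ℝ)),
          y ^ C₁ * Real.exp (- W) * (x : ℝ) ^ (prD D).card := by
        refine Finset.sum_le_sum fun D hD => ?_
        rw [Finset.mem_filter, mem_sqF] at hD
        obtain ⟨⟨h1, h2, h3, h4⟩, h5⟩ := hD
        generalize hw : (prD D).card = w at h5 ⊢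
        have h6 : y ^ d D ≤ y ^ (C₁ + 2 * g * w) := pow_le_pow_right₀ hy (hw ▸ hd D h1 h3 h4)
        refine h6.trans ?_
        rw [pow_add, pow_mul y (2 * g) w, mul_assoc]
        refine mul_le_mul_of_nonneg_left ?_ (pow_nonneg hy0.le _)
        have h7 : (Real.exp 1 * y ^ (2 * g)) ^ w ≤ (x : ℝ) ^ w :=
          pow_le_pow_left₀ (by positivity) hxe w
        rw [mul_pow, Real.exp_one_pow] at h7
        have h8 : Real.exp (-(w : ℝ)) ≤ Real.exp (-W) := Real.exp_le_exp.2 (by linarith)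
        have h9 : Real.exp (-(w : ℝ)) * Real.exp w = 1 := by
          rw [← Real.exp_add, neg_add_cancel, Real.exp_zero]
        calc (y ^ (2 * g)) ^ w = Real.exp (-(w : ℝ)) * (Real.exp w * (y ^ (2 * g)) ^ w) := by
              rw [← mul_assoc, h9, one_mul]
          _ ≤ Real.exp (-(w : ℝ)) * (x : ℝ) ^ w :=
              mul_le_mul_of_nonneg_left h7 (Real.exp_pos _).le
          _ ≤ Real.exp (-W) * (x : ℝ) ^ w :=
              mul_le_mul_of_nonneg_right h8 (pow_nonneg (Nat.cast_nonneg _) _)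
    _ ≤ ∑ D ∈ sqF B m, y ^ C₁ * Real.exp (- W) * (x : ℝ) ^ (prD D).card := by
        refine Finset.sum_le_sum_of_subset_of_nonneg (Finset.filter_subset _ _) fun D _ _ => ?_
        positivity
    _ = y ^ C₁ * Real.exp (- W) * ∑ D ∈ sqF B m, (x : ℝ) ^ (prD D).card := by
        rw [Finset.mul_sum]
    _ ≤ y ^ C₁ * Real.exp (- W) * (((m : ℝ) + x) ^ x * qm) := by
        refine mul_le_mul_of_nonneg_left hO (by positivity)
    _ = y ^ C₁ * qm := by
        rw [← heW]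
        have : Real.exp (- W) * Real.exp W = 1 := by
          rw [← Real.exp_add, neg_add_cancel, Real.exp_zero]
        linear_combination y ^ C₁ * qm * this

/-- The error term for one `D`. -/
theorem err_le {q : ℝ} (hq : 3 ≤ q) {m n x C₀ w δ : ℕ} (hx1 : 1 ≤ x) (hn1 : 1 ≤ n) (hn : n ≤ m)
    (hδ : δ ≤ m - n) (hw : (w : ℝ) < x * Real.log ((m : ℝ) + x))
    (hM : 2 * (Real.log (C₀ + 1) + (x + 2) * Real.log ((m : ℝ) + x)) ≤ n) :
    (n : ℝ) * (q ^ n / n + 2 ^ w * (C₀ * (1 + (δ : ℝ)) * √(q ^ n))) ≤ 2 * q ^ n := by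
  have hq0 : 0 < q := by linarith
  have hn0 : (0 : ℝ) < n := by exact_mod_cast hn1
  have hx1' : (1 : ℝ) ≤ x := by exact_mod_cast hx1
  have hm0 : (0 : ℝ) ≤ m := Nat.cast_nonneg _
  have hC0 : (0 : ℝ) ≤ C₀ := Nat.cast_nonneg _
  have hX0 : 0 < (m : ℝ) + x := by linarith
  have e1 : (2 : ℝ) ^ w ≤ ((m : ℝ) + x) ^ x := by
    rw [← exp_W (m := m) hx1]
    refine le_trans ?_ (Real.exp_le_exp.2 hw.le)
    rw [← Real.exp_one_pow]
    exact pow_le_pow_left₀ (by norm_num) (by linarith [Real.exp_one_gt_d9]) _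
  have e2 : (n : ℝ) ≤ (m : ℝ) + x := by
    have : (n : ℝ) ≤ m := by exact_mod_cast hn
    linarith
  have e3 : 1 + (δ : ℝ) ≤ (m : ℝ) + x := by
    have : δ + 1 ≤ m := by omega
    have : (δ : ℝ) + 1 ≤ m := by exact_mod_cast this
    linarith
  have e4 : (C₀ + 1 : ℝ) * ((m : ℝ) + x) ^ (x + 2) ≤ √(q ^ n) := by
    refine big_pr hq (by positivity) hX0 _ _ ?_
    refine le_trans (le_of_eq ?_) hM
    push_cast
    ring
  have hs0 : 0 ≤ √(q ^ n) := Real.sqrt_nonneg _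
  have hs : √(q ^ n) * √(q ^ n) = q ^ n := Real.mul_self_sqrt (by positivity)
  have h : (n : ℝ) * (2 ^ w * (C₀ * (1 + (δ : ℝ)) * √(q ^ n))) ≤ q ^ n := by
    generalize √(q ^ n) = s at *
    generalize (m : ℝ) + x = X at *
    calc (n : ℝ) * (2 ^ w * (C₀ * (1 + (δ : ℝ)) * s))
        ≤ X * (X ^ x * ((C₀ + 1) * X * s)) := by
          gcongr
          linarith
      _ = (C₀ + 1 : ℝ) * X ^ (x + 2) * s := by ring
      _ ≤ s * s := mul_le_mul_of_nonneg_right e4 hs0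
      _ = q ^ n := hs
  rw [mul_add, mul_div_cancel₀ _ hn0.ne']
  linarith

theorem part2 (hREM : P_REM) (h2 : (2 : k) ≠ 0) {B : k[X]} (hB0 : B ≠ 0) {F : k[X] → ℝ}
    (hF0 : ∀ D, 0 ≤ F D) {a : k[X] → ℝ} (ha0 : ∀ D, 0 ≤ a D) {Ba Y : ℝ} (hY : 0 ≤ Y)
    (hBa : ∀ N' : ℕ, ∑ D ∈ sqF B N', a D ≤ Ba * (Nat.card k : ℝ) ^ N') (C₀ : ℕ)
    (hA : ∀ D : k[X], D.Monic → Squarefree D → IsCoprime D B → ∀ n : ℕ, 0 < n →
      ∑ Q ∈ (irrD k n).filter (fun Q => ¬ Q ∣ D ∧ ¬ Q ∣ B), F (D * Q) ≤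
        Y * a D * ((Nat.card k : ℝ) ^ n / n + 2 ^ (prD D).card * (C₀ * (1 + (D.natDegree : ℝ)) *
            √((Nat.card k : ℝ) ^ n))))
    (x : ℕ) (hx1 : 1 ≤ x) (m : ℕ) (hm1 : 0 < m)
    (hm : (x : ℝ) * Real.log ((m : ℝ) + x) *
      (2 * (Real.log (C₀ + 1) + (x + 2) * Real.log ((m : ℝ) + x)) + 1) ≤ (m : ℝ) / 2) :
    ∑ D ∈ (sqF B m).filter (fun D => ((prD D).card : ℝ) < x * Real.log ((m : ℝ) + x)), F D ≤
      4 * Y * Ba * (Nat.card k : ℝ) ^ m := by
  have hq := q_three h2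
  generalize (Nat.card k : ℝ) = q at *
  have hq0 : 0 < q := by linarith
  have hm1' : (0 : ℝ) < m := by exact_mod_cast hm1
  have hx1' : (1 : ℝ) ≤ x := by exact_mod_cast hx1
  have hmx : (1 : ℝ) ≤ (m : ℝ) + x := by linarith
  have hL := Real.log_nonneg hmx
  have herr : ∀ {n w δ : ℕ}, 1 ≤ n → n ≤ m → δ ≤ m - n → (w : ℝ) < x * Real.log ((m : ℝ) + x) →
      2 * (Real.log (C₀ + 1) + (x + 2) * Real.log ((m : ℝ) + x)) ≤ n →
      (n : ℝ) * (q ^ n / n + 2 ^ w * (C₀ * (1 + (δ : ℝ)) * √(q ^ n))) ≤ 2 * q ^ n :=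
    fun h1 h2 h3 h4 h5 => err_le hq hx1 h1 h2 h3 h4 h5
  have hZ0 : 0 ≤ 2 * (Real.log (C₀ + 1) + (x + 2) * Real.log ((m : ℝ) + x)) := by
    have h1 : 0 ≤ Real.log ((C₀ : ℝ) + 1) := Real.log_nonneg (by
      have : (0 : ℝ) ≤ C₀ := Nat.cast_nonneg _
      linarith)
    positivity
  have hW0 : 0 ≤ (x : ℝ) * Real.log ((m : ℝ) + x) := by positivity
  generalize 2 * (Real.log (C₀ + 1) + (x + 2) * Real.log ((m : ℝ) + x)) = Z at *
  generalize (x : ℝ) * Real.log ((m : ℝ) + x) = W at *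
  obtain ⟨M, hM1, hM2⟩ : ∃ M : ℕ, Z ≤ M ∧ (M : ℝ) ≤ Z + 1 :=
    ⟨⌈Z⌉₊, Nat.le_ceil _, (Nat.ceil_lt_add_one hZ0).le⟩
  have hWM : W * M ≤ m / 2 := (mul_le_mul_of_nonneg_left hM2 hW0).trans hm
  obtain ⟨τ, hτ⟩ : ∃ τ : k[X] → Prop, ∀ Q, τ Q ↔ M < Q.natDegree := ⟨_, fun Q => Iff.rfl⟩
  obtain ⟨G, hG⟩ : ∃ G : k[X] → k[X] → ℝ, ∀ D Q, G D Q =
      if ((prD D).card : ℝ) < W then (Q.natDegree : ℝ) * F D else 0 := ⟨_, fun D Q => rfl⟩
  have hG0 : ∀ D Q, 0 ≤ G D Q := by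
    intro D Q
    rw [hG]
    split_ifs
    · exact mul_nonneg (Nat.cast_nonneg _) (hF0 D)
    · exact le_rfl
  -- lower bound
  have low : (m : ℝ) * ∑ D ∈ (sqF B m).filter (fun D => ((prD D).card : ℝ) < W), F D ≤
      2 * ∑ D ∈ sqF B m, ∑ Q ∈ (prD D).filter τ, G D Q := by
    rw [Finset.mul_sum, Finset.mul_sum]
    refine le_trans ?_ (Finset.sum_le_sum_of_subset_of_nonneg (Finset.filter_subset
      (fun D => ((prD D).card : ℝ) < W) _) fun D _ _ =>
        mul_nonneg (by norm_num) (Finset.sum_nonneg fun Q _ => hG0 D Q))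
    refine Finset.sum_le_sum fun D hD => ?_
    rw [Finset.mem_filter, mem_sqF] at hD
    obtain ⟨⟨h1, h2, h3, h4⟩, h5⟩ := hD
    have h6 : ∀ Q ∈ (prD D).filter τ, G D Q = (Q.natDegree : ℝ) * F D := by
      intro Q _
      rw [hG, if_pos h5]
    rw [Finset.sum_congr rfl h6, ← Finset.sum_mul, ← mul_assoc]
    refine mul_le_mul_of_nonneg_right ?_ (hF0 D)
    have h7 : (m : ℝ) = ∑ Q ∈ prD D, (Q.natDegree : ℝ) := by
      have := dg_prD h1 h3
      unfold dg at this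
      rw [h2] at this
      exact_mod_cast this.symm
    rw [← Finset.sum_filter_add_sum_filter_not (prD D) τ] at h7
    have h8 : ∑ Q ∈ (prD D).filter (fun Q => ¬ τ Q), (Q.natDegree : ℝ) ≤ m / 2 := by
      refine le_trans ?_ hWM
      have h9 : ∑ Q ∈ (prD D).filter (fun Q => ¬ τ Q), (Q.natDegree : ℝ) ≤
          ∑ Q ∈ (prD D).filter (fun Q => ¬ τ Q), (M : ℝ) := by
        refine Finset.sum_le_sum fun Q hQ => ?_
        have := (Finset.mem_filter.1 hQ).2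
        rw [hτ] at this
        exact_mod_cast not_lt.1 this
      refine h9.trans ?_
      rw [Finset.sum_const, nsmul_eq_mul]
      refine mul_le_mul_of_nonneg_right ?_ (Nat.cast_nonneg _)
      refine le_trans ?_ h5.le
      exact_mod_cast Finset.card_le_card (Finset.filter_subset _ _)
    linarith
  rw [hREM k B h2 hB0 m τ G] at low
  -- upper bound
  have up : ∀ n ∈ Finset.Icc 1 m, ∑ D ∈ sqF B (m - n),
      ∑ Q ∈ (irrD k n).filter (fun Q => τ Q ∧ ¬ Q ∣ D ∧ ¬ Q ∣ B), G (D * Q) Q ≤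
      2 * Y * Ba * q ^ m := by
    intro n hn
    rw [Finset.mem_Icc] at hn
    have hn0 : (0 : ℝ) < n := by exact_mod_cast hn.1
    have hone : ∀ D ∈ sqF B (m - n),
        ∑ Q ∈ (irrD k n).filter (fun Q => τ Q ∧ ¬ Q ∣ D ∧ ¬ Q ∣ B), G (D * Q) Q ≤
        2 * Y * q ^ n * a D := by
      intro D hD
      rw [mem_sqF] at hD
      obtain ⟨h1, h2, h3, h4⟩ := hD
      have hav := ha0 D
      have hrhs : 0 ≤ 2 * Y * q ^ n * a D := by positivity
      by_cases hMn : M < n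
      swap
      · rw [Finset.sum_eq_zero]
        · exact hrhs
        · intro Q hQ
          rw [Finset.mem_filter, mem_irrD, hτ] at hQ
          exact absurd hQ.2.1 (by rw [hQ.1.2.2]; exact hMn)
      by_cases hw : ((prD D).card : ℝ) < W
      swap
      · rw [Finset.sum_eq_zero]
        · exact hrhs
        · intro Q hQ
          rw [Finset.mem_filter, mem_irrD] at hQ
          rw [hG, if_neg]
          intro h5
          apply hw
          rw [prD_mul h1.ne_zero hQ.1.1 hQ.1.2.1] at h5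
          refine lt_of_le_of_lt ?_ h5
          exact_mod_cast Finset.card_le_card (Finset.subset_insert _ _)
      have h5 := hA D h1 h3 h4 n hn.1
      have h6 : ∑ Q ∈ (irrD k n).filter (fun Q => τ Q ∧ ¬ Q ∣ D ∧ ¬ Q ∣ B),
          G (D * Q) Q ≤ n * ∑ Q ∈ (irrD k n).filter (fun Q => ¬ Q ∣ D ∧ ¬ Q ∣ B), F (D * Q) := by
        rw [Finset.mul_sum]
        have h7 : (irrD k n).filter (fun Q => τ Q ∧ ¬ Q ∣ D ∧ ¬ Q ∣ B) ⊆
            (irrD k n).filter (fun Q => ¬ Q ∣ D ∧ ¬ Q ∣ B) := by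
          intro Q
          rw [Finset.mem_filter, Finset.mem_filter]
          exact fun h => ⟨h.1, h.2.2⟩
        refine le_trans (Finset.sum_le_sum_of_subset_of_nonneg h7 fun Q _ _ => hG0 _ _) ?_
        refine Finset.sum_le_sum fun Q hQ => ?_
        rw [Finset.mem_filter, mem_irrD] at hQ
        rw [hG]
        split_ifs
        · rw [hQ.1.2.2]
        · exact mul_nonneg hn0.le (hF0 _)
      refine h6.trans ((mul_le_mul_of_nonneg_left h5 hn0.le).trans ?_)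
      have hMn' : (M : ℝ) ≤ n := by exact_mod_cast hMn.le
      have hfin := herr (n := n) (w := (prD D).card) (δ := D.natDegree) hn.1 hn.2 h2.le hw
        (hM1.trans hMn')
      have hYa : 0 ≤ Y * a D := mul_nonneg hY hav
      calc (n : ℝ) * (Y * a D *
            (q ^ n / n + 2 ^ (prD D).card * (C₀ * (1 + (D.natDegree : ℝ)) * √(q ^ n))))
          = Y * a D *
            ((n : ℝ) * (q ^ n / n + 2 ^ (prD D).card * (C₀ * (1 + (D.natDegree : ℝ)) * √(q ^ n)))) := by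
            rw [mul_left_comm]
        _ ≤ Y * a D * (2 * q ^ n) := mul_le_mul_of_nonneg_left hfin hYa
        _ = 2 * Y * q ^ n * a D := by ring
    refine (Finset.sum_le_sum hone).trans ?_
    rw [← Finset.mul_sum]
    refine (mul_le_mul_of_nonneg_left (hBa (m - n)) (by positivity)).trans (le_of_eq ?_)
    have : q ^ m = q ^ n * q ^ (m - n) := by
      rw [← pow_add]; congr 1; omega
    rw [this]
    ring
  have up' := (Finset.sum_le_sum up)
  rw [Finset.sum_const, nsmul_eq_mul, Nat.card_Icc, Nat.add_sub_cancel] at up'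
  have h1 : (m : ℝ) * ∑ D ∈ (sqF B m).filter (fun D => ((prD D).card : ℝ) < W), F D ≤
      m * (4 * Y * Ba * q ^ m) := by
    refine low.trans ?_
    refine (mul_le_mul_of_nonneg_left up' (by norm_num)).trans (le_of_eq (by ring))
  exact le_of_mul_le_mul_left h1 hm1'

end parts

/-- **NTM**. -/
theorem T_NTM (hAVM : P_AVM) (hTRB : P_TRB) (hLSA : P_LSA) (hOMG : P_OMG) (hCLS : P_CLSU)
    (hREM : P_REM) : P_NTM := by
  intro k K L O _ _ _ _ _ _ _ _ _ _ _ _ _ _ _ _ g N r f θ hf hfull hgen y hy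
  obtain ⟨nrs, hnrs⟩ := exists_NRs3 k hf.two
  have hB0 : dsc g f ≠ 0 := hf.fam.sq.ne_zero
  obtain ⟨Ba, hBa⟩ := hAVM k K L O g N r f θ hf hfull hgen nrs hnrs y hy
  obtain ⟨C₀, hA⟩ := lemA (O := O) (K := K) hTRB hLSA hCLS hf hgen hnrs
  have hA := hA y hy
  obtain ⟨C₁, hC₁⟩ := dimS_le (O := O) (K := K) hTRB hf hgen
  have hq := q_three hf.two
  have hy0 : 0 < y := by linarith
  have hBa0 : 0 ≤ Ba := by
    have h1 := hBa 0
    rw [pow_zero, mul_one] at h1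
    exact le_trans (Finset.sum_nonneg fun D _ => av_nn nrs hy _) h1
  obtain ⟨x, hxe, hx1⟩ : ∃ x : ℕ, Real.exp 1 * y ^ (2 * g) ≤ x ∧ 1 ≤ x :=
    ⟨⌈Real.exp 1 * y ^ (2 * g)⌉₊, Nat.le_ceil _, Nat.ceil_pos.2 (by positivity)⟩
  have hp1 := part1 hOMG hf.two hB0 hy (fun D => dimS O K f θ D) C₁ g hC₁ x hx1 hxe
  have hp2 := part2 hREM hf.two hB0 (F := fun D => y ^ dimS O K f θ D)
    (fun D => pow_nonneg hy0.le _) (a := fun D => av O K f θ nrs (fun d => y ^ d) (prD D))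
    (fun D => av_nn nrs hy _) (Ba := Ba) (Y := y ^ (2 * g)) (pow_nonneg hy0.le _) hBa C₀ hA x hx1
  obtain ⟨m₀, hm₀⟩ := eventually_atTop.1 (ev_log x (Real.log (C₀ + 1)))
  generalize (Nat.card k : ℝ) = q at hp1 hp2 hq ⊢
  have hq0 : 0 < q := by linarith
  have hq1 : 1 ≤ q := by linarith
  have hSm0 : ∀ m, 0 ≤ ∑ D ∈ sqF (dsc g f) m, y ^ dimS O K f θ D :=
    fun m => Finset.sum_nonneg fun D _ => pow_nonneg hy0.le _
  refine ⟨y ^ C₁ + 4 * y ^ (2 * g) * Ba + ∑ i ∈ Finset.range (m₀ + 1),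
    ∑ D ∈ sqF (dsc g f) i, y ^ dimS O K f θ D, fun m => ?_⟩
  have hqm : 1 ≤ q ^ m := one_le_pow₀ hq1
  have hsum0 : 0 ≤ ∑ i ∈ Finset.range (m₀ + 1), ∑ D ∈ sqF (dsc g f) i, y ^ dimS O K f θ D :=
    Finset.sum_nonneg fun i _ => hSm0 i
  have h40 : 0 ≤ 4 * y ^ (2 * g) * Ba := by positivity
  have hy1 : 0 ≤ y ^ C₁ := by positivity
  by_cases hm : m < m₀ + 1
  · have h1 : ∑ D ∈ sqF (dsc g f) m, y ^ dimS O K f θ D ≤
        ∑ i ∈ Finset.range (m₀ + 1), ∑ D ∈ sqF (dsc g f) i, y ^ dimS O K f θ D :=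
      Finset.single_le_sum (f := fun i => ∑ D ∈ sqF (dsc g f) i, y ^ dimS O K f θ D)
        (fun i _ => hSm0 i) (Finset.mem_range.2 hm)
    generalize ∑ i ∈ Finset.range (m₀ + 1), ∑ D ∈ sqF (dsc g f) i, y ^ dimS O K f θ D = R at *
    generalize 4 * y ^ (2 * g) * Ba = R' at *
    generalize y ^ C₁ = R'' at *
    refine h1.trans ?_
    calc R ≤ (R'' + R' + R) * 1 := by linarith
      _ ≤ (R'' + R' + R) * q ^ m := mul_le_mul_of_nonneg_left hqm (by linarith)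
  · have h1 := hp1 m
    have h2 := hp2 m (by omega) (hm₀ m (by omega))
    have h3 : ∑ D ∈ sqF (dsc g f) m, y ^ dimS O K f θ D =
        ∑ D ∈ (sqF (dsc g f) m).filter
          (fun D => x * Real.log ((m : ℝ) + x) ≤ ((prD D).card : ℝ)), y ^ dimS O K f θ D +
        ∑ D ∈ (sqF (dsc g f) m).filter
          (fun D => ((prD D).card : ℝ) < x * Real.log ((m : ℝ) + x)), y ^ dimS O K f θ D := by
      rw [← Finset.sum_filter_add_sum_filter_not (sqF (dsc g f) m)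
        (fun D => x * Real.log ((m : ℝ) + x) ≤ ((prD D).card : ℝ))]
      congr 1
      refine Finset.sum_congr ?_ fun _ _ => rfl
      ext D
      rw [Finset.mem_filter, Finset.mem_filter, not_le]
    rw [h3]
    generalize ∑ i ∈ Finset.range (m₀ + 1), ∑ D ∈ sqF (dsc g f) i, y ^ dimS O K f θ D = R at *
    refine (add_le_add h1 h2).trans ?_
    have h5 : 0 ≤ R * q ^ m := mul_nonneg hsum0 (by positivity)
    calc y ^ C₁ * q ^ m + 4 * y ^ (2 * g) * Ba * q ^ m ≤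
        y ^ C₁ * q ^ m + 4 * y ^ (2 * g) * Ba * q ^ m + R * q ^ m := le_add_of_nonneg_right h5
      _ = _ := by ring

end Run7.h711.PL
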