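import Pool.Agent.Run7.h286.PL.StmS
import Pool.Agent.Run7.h81.TG.CONC

/-!
# Project PRL (helper286), piece BRG (helper711): the explicit Selmer group is the 2-Selmer group

After `Run7/h81/TG/CONC.lean` (helper81).
-/

set_option autoImplicit false
set_option linter.all false

open Polynomial IsDedekindDomain
open scoped Classical

namespace Run7.h711.PL

open Pool.Agent.N874.PP (Ov Ev Sq1)
open Pool.Agent.N352.PJ Run7.h784.TG Run7.h875.TS Run7.h286.PL
open Run7.h81.TG (loc1')

/-- The monic generator of a place. -/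
theorem exists_gen {k : Type} [Field k] (v : HeightOneSpectrum k[X]) :
    ∃ P : k[X], P.Monic ∧ Irreducible P ∧ v.asIdeal = Ideal.span {P} := by
  obtain ⟨p, hp⟩ := (IsPrincipalIdealRing.principal v.asIdeal).principal
  have hp' : v.asIdeal = Ideal.span {p} := hp
  have hp0 : p ≠ 0 := by
    rintro rfl
    exact v.ne_bot (by rw [hp', Ideal.span_singleton_eq_bot])
  have hpp : Prime p := by
    have h1 := v.isPrime
    rw [hp', Ideal.span_singleton_prime hp0] at h1
    exact h1
  refine ⟨normalize p, monic_normalize hp0, ?_, ?_⟩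
  · exact (normalize_associated p).symm.irreducible hpp.irreducible
  · rw [hp']
    exact Ideal.span_singleton_eq_span_singleton.2 (normalize_associated p).symm

theorem T_BRG (hLOCW : P_LOCW) (hGRP : P_GRP) (hREP : P_REP) : P_BRG := by
  intro k K L O _ _ _ _ _ _ _ _ _ _ _ _ _ _ _ _ g N r f θ hFm hc D hDm hDs hDd
  have hF := hFm.fam
  have hm := hc.mon
  have hd := hc.deg
  have hD0 : D ≠ 0 := hDm.ne_zero
  set F' : K[X] := (f.scaleRoots D).map (algebraMap k[X] K) with hF'
  haveI hfact' : Fact (Irreducible F') :=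
    ⟨(Pool.Agent.N134.PJ.irk g k K f N r D hF.ht hFm.gr hF.inf hD0).2.1⟩
  set Θ : L := algebraMap k[X] L D * θ with hΘ
  have hroot : aeval Θ F' = 0 := by
    rw [hF', aeval_map_algebraMap]
    have := scaleRoots_eval₂_mul (p := f) (algebraMap k[X] L) θ D
    rw [hc.root, mul_zero] at this
    rw [aeval_def]
    exact this
  have hmF' : F'.Monic := ((monic_scaleRoots_iff D).2 hm).map _
  let φ : AdjoinRoot F' →ₐ[K] L := AdjoinRoot.liftAlgHom F' (Algebra.ofId K _) Θ hroot
  have hφmk : ∀ p : K[X], φ (AdjoinRoot.mk F' p) = aeval Θ p := by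
    intro p
    have h1 := AdjoinRoot.liftAlgHom_mk F' (Algebra.ofId K L) Θ hroot p
    rw [Algebra.toRingHom_ofId, ← Polynomial.aeval_def] at h1
    exact h1
  have hφinj : Function.Injective φ := φ.toRingHom.injective
  haveI : FiniteDimensional K (AdjoinRoot F') := hmF'.finite_adjoinRoot
  haveI : FiniteDimensional K L := by
    apply FiniteDimensional.of_finrank_pos
    rw [hc.rank]; omega
  have hrk : Module.finrank K (AdjoinRoot F') = Module.finrank K L := by
    rw [hc.rank, (AdjoinRoot.powerBasis hmF'.ne_zero).finrank, AdjoinRoot.powerBasis_dim, hF',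
      ((monic_scaleRoots_iff D).2 hm).natDegree_map, natDegree_scaleRoots, hd]
  have hφsurj : Function.Surjective φ :=
    (LinearMap.injective_iff_surjective_of_finrank_eq_finrank (f := φ.toLinearMap) hrk).1 hφinj
  let e : AdjoinRoot F' ≃ₐ[K] L := AlgEquiv.ofBijective φ ⟨hφinj, hφsurj⟩
  have hemk : ∀ p : K[X], e (AdjoinRoot.mk F' p) = aeval Θ p := hφmk
  let eu : (AdjoinRoot F')ˣ ≃* Lˣ := Units.mapEquiv (e : AdjoinRoot F' ≃* L)
  have heu : ∀ α : (AdjoinRoot F')ˣ, ((eu α : Lˣ) : L) = e (α : AdjoinRoot F') := fun α => rfl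
  set S := prD D with hS
  have hST : GoodT g f S (fun P => D / P) := by
    refine ⟨fun P hP => ((mem_prD hD0).1 hP).1, fun P hP => ((mem_prD hD0).1 hP).2.1,
      fun P hP => ?_, fun P hP hPD' => ?_⟩
    · obtain ⟨hPm, hPi, hPD⟩ := (mem_prD hD0).1 hP
      exact hDd P hPi hPD
    · obtain ⟨hPm, hPi, hPD⟩ := (mem_prD hD0).1 hP
      have hmul : P * (D / P) = D := EuclideanDomain.mul_div_cancel' hPi.ne_zero hPD
      have h2 : P * P ∣ D := by
        rw [← hmul]
        exact mul_dvd_mul_left P hPD'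
      exact hPi.not_isUnit (hDs P h2)
  obtain ⟨hmem, hsqle⟩ := (hGRP k K L O g N r f θ hFm hc).2 S (fun P => D / P) hST
  have hsz : sz (SelG O K f θ S (fun P => D / P)) ≠ 0 :=
    (hREP k K L O g N r f θ hFm hc).2 S (fun P => D / P) hST hmem
  -- the squares
  have hsq : ((powMonoidHom 2 : (AdjoinRoot F')ˣ →* _).range).map (eu : (AdjoinRoot F')ˣ →* Lˣ) =
      sqL L := by
    ext x
    constructor
    · rintro ⟨_, ⟨z, rfl⟩, rfl⟩
      exact ⟨eu z, by
        show (eu z) ^ 2 = eu (z ^ 2)
        rw [map_pow]⟩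
    · rintro ⟨z, rfl⟩
      refine ⟨(eu.symm z) ^ 2, ⟨eu.symm z, rfl⟩, ?_⟩
      show eu ((eu.symm z) ^ 2) = z ^ 2
      rw [map_pow, MulEquiv.apply_symm_apply]
  have hrel : (sqL L).relIndex ((SelJ K (f.scaleRoots D)).map (eu : (AdjoinRoot F')ˣ →* Lˣ)) =
      ((powMonoidHom 2 : (AdjoinRoot F')ˣ →* _).range).relIndex (SelJ K (f.scaleRoots D)) := by
    rw [← hsq]
    exact Subgroup.relIndex_map_map_of_injective _ _ eu.injective
  -- the first inclusion
  have hle : (SelJ K (f.scaleRoots D)).map (eu : (AdjoinRoot F')ˣ →* Lˣ) ≤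
      SelG O K f θ S (fun P => D / P) := by
    rw [Subgroup.map_le_iff_le_comap]
    refine (Subgroup.closure_le _).2 ?_
    rintro α ⟨hnorm, h, hhα, hloc⟩
    show eu α ∈ SelG O K f θ S (fun P => D / P)
    rw [hmem, heu]
    have hα : e (α : AdjoinRoot F') = aeval Θ h := by rw [← hhα, hemk]
    have hne : aeval Θ h ≠ 0 := by
      rw [← hα]
      exact (eu α).ne_zero
    have hnorm' : IsSquare (Algebra.norm K (aeval Θ h)) := by
      rw [← hα, Algebra.norm_eq_of_algEquiv]
      exact hnorm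
    rw [hα]
    refine ⟨hne, hnorm', ?_, ?_⟩
    · intro P hPm hPi hPS 𝔓 hov
      have hPD : ¬ P ∣ D := fun hPD => hPS ((mem_prD hD0).2 ⟨hPm, hPi, hPD⟩)
      exact loc1' g k K L O f θ hFm.two hc hF.sq P
        ⟨Ideal.span {P}, (Ideal.span_singleton_prime hPi.ne_zero).2 hPi.prime, by
          rw [Ne, Ideal.span_singleton_eq_bot]; exact hPi.ne_zero⟩ hPi rfl D h hPD hne hnorm'
        (hloc _) 𝔓 hov
    · intro P hPS
      obtain ⟨hPm, hPi, hPD⟩ := (mem_prD hD0).1 hPS
      have hPn := hDd P hPi hPD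
      have hmul : P * (D / P) = D := EuclideanDomain.mul_div_cancel' hPi.ne_zero hPD
      have h3 := hLOCW k K L O g N r f θ hFm hc P
        ⟨Ideal.span {P}, (Ideal.span_singleton_prime hPi.ne_zero).2 hPi.prime, by
          rw [Ne, Ideal.span_singleton_eq_bot]; exact hPi.ne_zero⟩ hPm hPi hPn rfl (D / P) h
        (hST.nu P hPS)
      rw [hmul] at h3
      show LocW O f θ P (P * (D / P)) (aeval Θ h)
      rw [hmul]
      exact h3 hne (hloc _)
  constructor
  · unfold rkJ dimS ld
    refine Nat.log_mono_right ?_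
    rw [← hrel]
    exact Subgroup.relIndex_le_of_le_right hle hsz
  · intro hEQ1 hEQ2
    have heq : (SelJ K (f.scaleRoots D)).map (eu : (AdjoinRoot F')ˣ →* Lˣ) =
        SelG O K f θ S (fun P => D / P) := by
      refine le_antisymm hle fun x hx => ?_
      have hsel := (hmem x).1 hx
      refine ⟨eu.symm x, ?_, eu.apply_symm_apply x⟩
      refine Subgroup.subset_closure ?_
      obtain ⟨h, hh⟩ := AdjoinRoot.mk_surjective ((eu.symm x : (AdjoinRoot F')ˣ) : AdjoinRoot F')
      have hx' : e ((eu.symm x : (AdjoinRoot F')ˣ) : AdjoinRoot F') = (x : L) := by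
        rw [← heu, MulEquiv.apply_symm_apply]
      have hα : aeval Θ h = (x : L) := by rw [← hx', ← hh, hemk]
      have hne : aeval Θ h ≠ 0 := by
        rw [hα]
        exact x.ne_zero
      have hnorm' : IsSquare (Algebra.norm K (aeval Θ h)) := by
        rw [hα]
        exact hsel.nsq
      refine ⟨?_, h, hh, fun v => ?_⟩
      · rw [← hemk, Algebra.norm_eq_of_algEquiv, hh] at hnorm'
        exact hnorm'
      · obtain ⟨P, hPm, hPi, hPv⟩ := exists_gen v
        by_cases hPD : P ∣ D
        · have hPS : P ∈ S := (mem_prD hD0).2 ⟨hPm, hPi, hPD⟩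
          have hmul : P * (D / P) = D := EuclideanDomain.mul_div_cancel' hPi.ne_zero hPD
          have h3 := hEQ2 k K L O g N r f θ hFm hc P v hPm hPi (hDd P hPi hPD) hPv (D / P) h
            (hST.nu P hPS)
          rw [hmul] at h3
          refine h3 hne ?_
          have h4 : LocW O f θ P (P * (D / P)) (x : L) := hsel.tw P hPS
          rw [hmul] at h4
          rw [← hΘ, hα]
          exact h4
        · refine hEQ1 k K L O g N r f θ hFm hc P v hPi hPv D h hPD hne hnorm' fun 𝔓 hov => ?_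
          rw [← hΘ, hα]
          exact hsel.ev P hPm hPi (fun hPS => hPD ((mem_prD hD0).1 hPS).2.2) 𝔓 hov
    unfold rkJ dimS ld sz
    rw [← heq, hrel]

end Run7.h711.PL
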