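import Pool.Agent.Run7.h711.PL.EQ2B
import Pool.Agent.Run7.h646.TG.LOCQ

/-!
# Project PRL (helper286), piece EQ2 (helper711): the local conditions at the primes of the twist

The converse of LOCW.
-/

set_option autoImplicit false
set_option linter.all false

open Polynomial IsDedekindDomain WithZero
open scoped Classical

namespace Run7.h711.PL

open Pool.Agent.N874.PP (Ov Ev Sq1)
open Pool.Agent.N352.PJ (IsGen Crd LocIm SelZero Fam GoodR Ht dsc S_INT)
open Pool.Agent.N765.PJ (ev ev_L ev_f ev_ker ev_surj ex_poly ev_CQ theta_ex val_one)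
open Pool.Agent.N862.PP (sq1_mul_sq not_ev_of_exp ev_mul_sq)
open Run7.h784.TG (Fm LocW)
open Run7.h646.TG

section near

variable {O L : Type} [CommRing O] [IsDedekindDomain O] [Field L] [Algebra O L] [IsFractionRing O L]
  {𝔓 : HeightOneSpectrum O}

theorem sq1_near {x y : L} (hx : Sq1 𝔓 x) (hxy : 𝔓.valuation L (y - x) < 𝔓.valuation L x) :
    Sq1 𝔓 y := by
  obtain ⟨s, hs⟩ := hx
  refine ⟨s, ?_⟩
  have hv : 𝔓.valuation L y = 𝔓.valuation L x := by
    have e : y = x + (y - x) := by ring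
    rw [e]
    exact Valuation.map_add_eq_of_lt_left _ hxy
  rw [hv]
  have e : y - s ^ 2 = (y - x) + (x - s ^ 2) := by ring
  rw [e]
  exact Valuation.map_add_lt _ hxy hs

theorem lt_one_iff {x : L} : 𝔓.valuation L x < 1 ↔ 𝔓.valuation L x ≤ exp (-1 : ℤ) := by
  constructor
  · intro h
    rcases eq_or_ne (𝔓.valuation L x) 0 with h0 | h0
    · rw [h0]; exact zero_le
    · rw [← exp_log h0] at h ⊢
      rw [← exp_zero, exp_lt_exp] at h
      rw [exp_le_exp]
      omega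
  · intro h
    refine lt_of_le_of_lt h ?_
    rw [← exp_zero, exp_lt_exp]
    norm_num

end near

section main

variable {k K L O : Type} [Field k] [Field K] [Algebra k[X] K] [IsFractionRing k[X] K]
  [Field L] [Algebra K L] [Algebra k[X] L] [IsScalarTower k[X] K L] [CommRing O]
  [IsDedekindDomain O] [Algebra O L] [IsFractionRing O L] [Algebra k[X] O]
  [IsScalarTower k[X] O L] [IsIntegralClosure O k[X] L] {g : ℕ} {f : k[X][X]} {θ : L}
  {Q : k[X]} {κ : Type} [Field κ] {π : k[X] →+* κ} {t : O}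

theorem dvd_of_aeval (h : IsGen g K f θ) {p : K[X]} (hp : aeval θ p = 0) :
    f.map (algebraMap k[X] K) ∣ p := by
  have hm := h.mon.map (algebraMap k[X] K)
  rw [← modByMonic_eq_zero_iff_dvd hm]
  set r := p %ₘ f.map (algebraMap k[X] K) with hr
  have hdr : r.degree < ((2 * g + 1 : ℕ) : WithBot ℕ) := by
    have h1 := degree_modByMonic_lt p hm
    rwa [degree_eq_natDegree hm.ne_zero, h.mon.natDegree_map, h.deg] at h1
  have hf0 : aeval θ (f.map (algebraMap k[X] K)) = 0 := by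
    rw [aeval_map_algebraMap, aeval_def, h.root]
  have h0 : aeval θ r = 0 := by
    have h1 := modByMonic_add_div p (f.map (algebraMap k[X] K))
    have h2 := congrArg (aeval θ) h1
    rw [map_add, map_mul, hf0, zero_mul, add_zero, hp] at h2
    exact h2
  have hli := Fintype.linearIndependent_iff.1 h.basis.linearIndependent
  have h1 : ∑ i : Fin (2 * g + 1), (r.coeff i) • h.basis i = 0 := by
    rw [← h0, aeval_def, eval₂_eq_sum_range' (algebraMap K L) (n := 2 * g + 1),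
      ← Fin.sum_univ_eq_sum_range (fun i => algebraMap K L (r.coeff i) * θ ^ i)]
    · refine Finset.sum_congr rfl fun i _ => ?_
      rw [h.basis_apply, Algebra.smul_def]
    · by_cases hr0 : r = 0
      · rw [hr0]; simp
      · exact (natDegree_lt_iff_degree_lt hr0).2 hdr
  have h2 := hli _ h1
  ext1 i
  rw [coeff_zero]
  by_cases hi : i < 2 * g + 1
  · exact h2 ⟨i, hi⟩
  · exact coeff_eq_zero_of_degree_lt (hdr.trans_le (by exact_mod_cast (not_lt.1 hi)))

theorem ex_aeval (h : IsGen g K f θ) (x : L) : ∃ p : K[X], aeval θ p = x := by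
  obtain ⟨c, hc⟩ := h.gen x
  refine ⟨∑ i, C (c i) * X ^ (i : ℕ), ?_⟩
  rw [hc, map_sum]
  refine Finset.sum_congr rfl fun i _ => ?_
  rw [map_mul, aeval_C, map_pow, aeval_X]

/-- A better approximation of the factor has the right classes. -/
theorem sq1_all (hπs : Function.Surjective π) (hπ : ∀ c, π c = 0 ↔ Q ∣ c) (hQ : Irreducible Q)
    (hI : S_INT) (h : IsGen g K f θ) (hsq : Squarefree (dsc g f)) (ht : algebraMap O L t = θ)
    (hs : Squarefree (f.map π)) {D' : k[X]} {α : L} (hα : α ≠ 0) (hD' : ¬ Q ∣ D')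
    {a b a₂ b₂ d₁ d₂ d₃ : k[X][X]} (hab : ∀ j, Q ∣ (f - a * b).coeff j) (h1 : a₂ - a = C Q * d₁)
    (h2 : b₂ - b = C Q * d₂) (h3 : f - C (Q * D') - a₂ * b₂ = C (Q ^ 2) * d₃)
    {𝔓 : HeightOneSpectrum O} (hov : Ov Q 𝔓)
    (hcl : (𝔓.valuation L (eval₂ (algebraMap k[X] L) θ a) < 1 →
        Sq1 𝔓 (α * (algebraMap k[X] L (-(Q * D')) * eval₂ (algebraMap k[X] L) θ b))) ∧
      (𝔓.valuation L (eval₂ (algebraMap k[X] L) θ a) = 1 →
        Sq1 𝔓 (α * eval₂ (algebraMap k[X] L) θ a))) :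
    Sq1 𝔓 (α * eval₂ (algebraMap k[X] L) θ a₂) := by
  obtain ⟨φ, hφ, h4⟩ := prime_fac (K := K) hπs hπ hQ hI h hsq ht hs hov
  have hu := unram (K := K) hπs hπ hQ hI h hsq ht hs hov
  have hα0 : 𝔓.valuation L α ≠ 0 := (Valuation.ne_zero_iff _).2 hα
  have hle : ∀ p : k[X][X], 𝔓.valuation L (eval₂ (algebraMap k[X] L) θ p) ≤ 1 := by
    intro p
    rw [← ev_L ht]
    exact 𝔓.valuation_le_one _
  have hQlt : 𝔓.valuation L (algebraMap k[X] L Q) < 1 := lt_one_iff.2 hu.le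
  have ha2 : eval₂ (algebraMap k[X] L) θ a₂ = eval₂ (algebraMap k[X] L) θ a +
      algebraMap k[X] L Q * eval₂ (algebraMap k[X] L) θ d₁ := by
    have e : a₂ = a + C Q * d₁ := by linear_combination h1
    rw [e, eval₂_add, eval₂_mul, eval₂_C]
  have hb2 : eval₂ (algebraMap k[X] L) θ b₂ = eval₂ (algebraMap k[X] L) θ b +
      algebraMap k[X] L Q * eval₂ (algebraMap k[X] L) θ d₂ := by
    have e : b₂ = b + C Q * d₂ := by linear_combination h2
    rw [e, eval₂_add, eval₂_mul, eval₂_C]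
  have hQd : ∀ p : k[X][X], 𝔓.valuation L (algebraMap k[X] L Q * eval₂ (algebraMap k[X] L) θ p) ≤
      exp (-1 : ℤ) := by
    intro p
    rw [map_mul, hu]
    exact mul_le_of_le_one_right' (hle p)
  rcases one_of hπs hπ h ht hs hab hφ h4 with ⟨h5, h6⟩ | ⟨h5, h6⟩
  · -- `a(θ)` in the prime
    set xa := eval₂ (algebraMap k[X] L) θ a with hxa
    set xb := eval₂ (algebraMap k[X] L) θ b with hxb
    have hb0 : xb ≠ 0 := by
      intro h0
      rw [h0, map_zero] at h6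
      exact zero_ne_one h6
    rw [← sq1_mul_sq hb0]
    refine sq1_near (hcl.1 h5) ?_
    have hvD : 𝔓.valuation L (algebraMap k[X] L (-(Q * D'))) = exp (-1 : ℤ) := by
      have hD1 : 𝔓.valuation L (algebraMap k[X] L D') = 1 := by
        rw [← Pool.Agent.N765.PJ.mapO (O := O)]
        exact 𝔓.valuation_eq_one_iff_notMem.mpr fun h3 =>
          hD' ((Pool.Agent.N765.PJ.ov_iff hQ hov D').1 h3)
      rw [map_neg, Valuation.map_neg, map_mul, map_mul, hD1, mul_one, hu]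
    have h7 := congrArg (eval₂ (algebraMap k[X] L) θ) h3
    rw [eval₂_sub, eval₂_sub, eval₂_mul, eval₂_mul, eval₂_C, eval₂_C, h.root, map_pow] at h7
    have e : α * eval₂ (algebraMap k[X] L) θ a₂ * xb ^ 2 -
        α * (algebraMap k[X] L (-(Q * D')) * xb) =
        α * (xb * (-(algebraMap k[X] L Q * (algebraMap k[X] L Q *
          eval₂ (algebraMap k[X] L) θ d₃)) - (xa + algebraMap k[X] L Q *
            eval₂ (algebraMap k[X] L) θ d₁) * (algebraMap k[X] L Q *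
              eval₂ (algebraMap k[X] L) θ d₂))) := by
      rw [hb2, ha2] at h7
      rw [ha2, map_neg]
      linear_combination (-(α * xb)) * h7
    rw [e]
    simp only [map_mul, h6, one_mul, mul_one, hvD]
    have h8 : 𝔓.valuation L (-(algebraMap k[X] L Q * (algebraMap k[X] L Q *
          eval₂ (algebraMap k[X] L) θ d₃)) - (xa + algebraMap k[X] L Q *
            eval₂ (algebraMap k[X] L) θ d₁) * (algebraMap k[X] L Q *
              eval₂ (algebraMap k[X] L) θ d₂)) < exp (-1 : ℤ) := by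
      refine Valuation.map_sub_lt _ ?_ ?_
      · rw [Valuation.map_neg, map_mul, hu]
        calc exp (-1 : ℤ) * 𝔓.valuation L (algebraMap k[X] L Q * eval₂ (algebraMap k[X] L) θ d₃)
            ≤ exp (-1 : ℤ) * exp (-1 : ℤ) := mul_le_mul_right (hQd _) _
          _ < exp (-1 : ℤ) := by
            rw [← exp_add, exp_lt_exp]; norm_num
      · rw [map_mul]
        have h9 : 𝔓.valuation L (xa + algebraMap k[X] L Q * eval₂ (algebraMap k[X] L) θ d₁) ≤
            exp (-1 : ℤ) := Valuation.map_add_le _ (lt_one_iff.1 h5) (hQd _)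
        calc _ ≤ exp (-1 : ℤ) * exp (-1 : ℤ) := mul_le_mul' h9 (hQd _)
          _ < exp (-1 : ℤ) := by
            rw [← exp_add, exp_lt_exp]; norm_num
    have h10 : 0 < 𝔓.valuation L α := zero_lt_iff.2 hα0
    have h11 := mul_lt_mul_of_pos_left h8 h10
    simpa only [map_mul] using h11
  · refine sq1_near (hcl.2 h5) ?_
    rw [ha2, mul_add, add_sub_cancel_left, map_mul (𝔓.valuation L) α, map_mul (𝔓.valuation L) α, h5]
    have h10 : 0 < 𝔓.valuation L α := zero_lt_iff.2 hα0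
    exact mul_lt_mul_of_pos_left (lt_one_iff.2 (hQd _)) h10

/-- Weak approximation. -/
theorem weak (hπs : Function.Surjective π) (hπ : ∀ c, π c = 0 ↔ Q ∣ c) (hQ : Irreducible Q)
    (hI : S_INT) (h : IsGen g K f θ) (hsq : Squarefree (dsc g f)) (ht : algebraMap O L t = θ)
    (hs : Squarefree (f.map π)) {x : L} (hx : ∀ 𝔓 : HeightOneSpectrum O, Ov Q 𝔓 → Sq1 𝔓 x) :
    x ≠ 0 ∧ ∃ (β : L) (c : k[X]) (m : k[X][X]), ¬ Q ∣ c ∧ algebraMap k[X] L c * x =
      β ^ 2 * (algebraMap k[X] L c + algebraMap k[X] L Q * eval₂ (algebraMap k[X] L) θ m) := by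
  have hfin := Run7.h225.TS.Ovr.fin_ov (K := K) (L := L) (O := O) hQ.ne_zero
  obtain ⟨φ₀, hφ₀⟩ := fs_nonempty (h.mon.map π) (by rw [h.mon.natDegree_map, h.deg]; omega)
  obtain ⟨𝔓₀, h𝔓₀⟩ := ex_prime (K := K) hπs hπ hQ hI h hsq ht hφ₀
  have hy : ∀ 𝔓 : HeightOneSpectrum O, ∃ s : L, Ov Q 𝔓 →
      𝔓.valuation L (x - s ^ 2) < 𝔓.valuation L x ∧ s ≠ 0 := by
    intro 𝔓
    by_cases hov : Ov Q 𝔓
    · obtain ⟨s, hs⟩ := hx 𝔓 hov
      refine ⟨s, fun _ => ⟨hs, ?_⟩⟩
      rintro rfl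
      rw [zero_pow two_ne_zero, sub_zero] at hs
      exact lt_irrefl _ hs
    · exact ⟨0, fun h' => absurd h' hov⟩
  choose s hs' using hy
  have hx0 : x ≠ 0 := by
    rintro rfl
    have := (hs' 𝔓₀ h𝔓₀.ov).1
    rw [map_zero] at this
    exact not_lt_zero this
  refine ⟨hx0, ?_⟩
  obtain ⟨β, hβ⟩ := Run7.h225.TS.Ovr.approx hfin s (fun 𝔓 h𝔓 => (hs' 𝔓 h𝔓).2)
  have hvβ : ∀ 𝔓 : HeightOneSpectrum O, Ov Q 𝔓 → 𝔓.valuation L β = 𝔓.valuation L (s 𝔓) := by
    intro 𝔓 h𝔓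
    have e : β = s 𝔓 + (β - s 𝔓) := by ring
    rw [e]
    exact Valuation.map_add_eq_of_lt_left _ (hβ 𝔓 h𝔓)
  have hβ0 : β ≠ 0 := by
    rintro rfl
    have h1 := hvβ 𝔓₀ h𝔓₀.ov
    rw [map_zero] at h1
    exact (hs' 𝔓₀ h𝔓₀.ov).2 ((Valuation.zero_iff _).1 h1.symm)
  have hkey : ∀ 𝔓 : HeightOneSpectrum O, Ov Q 𝔓 →
      𝔓.valuation L ((x / β ^ 2 - 1) / algebraMap k[X] L Q) ≤ 1 := by
    intro 𝔓 h𝔓
    have hu := unram (K := K) hπs hπ hQ hI h hsq ht hs h𝔓
    obtain ⟨h1, h2⟩ := hs' 𝔓 h𝔓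
    have h3 : 𝔓.valuation L (s 𝔓) ≠ 0 := (Valuation.ne_zero_iff _).2 h2
    have h4 : 𝔓.valuation L x = 𝔓.valuation L (s 𝔓) ^ 2 := by
      have e : (s 𝔓) ^ 2 = x - (x - (s 𝔓) ^ 2) := by ring
      rw [← map_pow, e]
      exact (Valuation.map_sub_eq_of_lt_left _ h1).symm
    have h5 : 𝔓.valuation L (x - β ^ 2) < 𝔓.valuation L (s 𝔓) ^ 2 := by
      have e : x - β ^ 2 = (x - (s 𝔓) ^ 2) - (β - s 𝔓) * (β + s 𝔓) := by ring
      rw [e]
      refine Valuation.map_sub_lt _ (h4 ▸ h1) ?_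
      rw [map_mul, pow_two]
      have h6 : 𝔓.valuation L (β + s 𝔓) ≤ 𝔓.valuation L (s 𝔓) :=
        Valuation.map_add_le _ (hvβ 𝔓 h𝔓).le le_rfl
      calc 𝔓.valuation L (β - s 𝔓) * 𝔓.valuation L (β + s 𝔓)
          ≤ 𝔓.valuation L (β - s 𝔓) * 𝔓.valuation L (s 𝔓) := mul_le_mul_right h6 _
        _ < 𝔓.valuation L (s 𝔓) * 𝔓.valuation L (s 𝔓) :=
          mul_lt_mul_of_pos_right (hβ 𝔓 h𝔓) (zero_lt_iff.2 h3)
    have h6 : 𝔓.valuation L (x / β ^ 2 - 1) < 1 := by
      have e : x / β ^ 2 - 1 = (x - β ^ 2) / β ^ 2 := by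
        field_simp
      rw [e, map_div₀, map_pow, hvβ 𝔓 h𝔓]
      rw [div_lt_one₀ (zero_lt_iff.2 (pow_ne_zero 2 h3))]
      exact h5
    rw [map_div₀, hu]
    rw [div_le_one₀ (zero_lt_iff.2 exp_ne_zero)]
    exact lt_one_iff.1 h6
  obtain ⟨c, z, hc, hz⟩ := Pool.Agent.N227.PJ.exists_den_Q (K := K) h ht hQ
    ((x / β ^ 2 - 1) / algebraMap k[X] L Q) hkey
  obtain ⟨m, hm⟩ := ev_surj (K := K) hI h hsq ht z
  refine ⟨β, c, m, hc, ?_⟩
  have hQ0 : algebraMap k[X] L Q ≠ 0 := by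
    intro h0
    exact hQ.ne_zero (Pool.Agent.N765.PJ.inj_L (L := L) K (by rw [h0, map_zero]))
  rw [← ev_L ht, hm, ← hz]
  field_simp
  ring

end main

theorem T_EQ2 : Run7.h286.PL.P_EQ2 := by
  intro k K L O _ _ _ _ _ _ _ _ _ _ _ _ _ _ _ _ g N r f θ hF hG Q v hQm hQ hd hv D' h hD' hne hl
  obtain ⟨a, b, ham, hbm, hae, hab, hcl⟩ := hl
  have hI : S_INT := Pool.Agent.N769.PJ.int
  have hsq : Squarefree (dsc g f) := hF.fam.sq
  have hmax : (Ideal.span {Q} : Ideal k[X]).IsMaximal :=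
    PrincipalIdealRing.isMaximal_of_irreducible hQ
  letI i1 : Field (k[X] ⧸ Ideal.span {Q}) := Ideal.Quotient.field _
  obtain ⟨t, ht⟩ := theta_ex O hG
  set π : k[X] →+* k[X] ⧸ Ideal.span {Q} := Ideal.Quotient.mk (Ideal.span {Q}) with hπd
  have hπs : Function.Surjective π := Ideal.Quotient.mk_surjective
  have hπ : ∀ c, π c = 0 ↔ Q ∣ c := fun c => by
    rw [hπd, Ideal.Quotient.eq_zero_iff_mem, Ideal.mem_span_singleton]
  have hs : Squarefree (f.map π) := red_sqf hπ hG.mon hG.deg hF.g1 hd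
  -- the factors modulo `Q`
  have hfab : f.map π = a.map π * b.map π := by
    rw [← Polynomial.map_mul]
    exact (map_eq_iff hπ).2 hab
  have hdeg : f.natDegree = a.natDegree + b.natDegree := by
    rw [← hG.mon.natDegree_map π, hfab, (ham.map π).natDegree_mul (hbm.map π), ham.natDegree_map,
      hbm.natDegree_map]
  obtain ⟨c₁, hc₁⟩ := dvd_of_map hπ (p := f - a * b) (by
    rw [Polynomial.map_sub, Polynomial.map_mul, hfab, sub_self])
  have hcop : IsCoprime (a.map π) (b.map π) := by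
    rw [hfab] at hs
    exact (squarefree_mul_iff.1 hs).1.isCoprime
  obtain ⟨x₀, y₀, hxy₀⟩ := hcop
  obtain ⟨x, rfl⟩ := Polynomial.map_surjective π hπs x₀
  obtain ⟨y, rfl⟩ := Polynomial.map_surjective π hπs y₀
  obtain ⟨c₂, hc₂⟩ := dvd_of_map hπ (p := x * a + y * b - 1) (by
    rw [Polynomial.map_sub, Polynomial.map_add, Polynomial.map_mul, Polynomial.map_mul, hxy₀,
      Polynomial.map_one, sub_self])
  -- Hensel
  obtain ⟨a', b', z, a₂, b₂, d₁, d₂, d₃, ha', hda', hF', hz, hd₁, hd₂, hd₃⟩ :=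
    hens (K := K) hv (D' := D') hG.mon ham hbm hdeg (by rw [hG.deg]; omega) hc₁ hc₂
  -- the classes
  set Θ : L := algebraMap k[X] L (Q * D') * θ with hΘ
  set α : L := aeval Θ h with hα
  have hall : ∀ 𝔓 : HeightOneSpectrum O, Ov Q 𝔓 → Sq1 𝔓 (α * eval₂ (algebraMap k[X] L) θ a₂) :=
    fun 𝔓 hov => sq1_all (K := K) hπs hπ hQ hI hG hsq ht hs hne hD' hab hd₁ hd₂ hd₃ hov (hcl 𝔓 hov)
  obtain ⟨hne2, β, c, m, hc, hβ⟩ := weak (K := K) hπs hπ hQ hI hG hsq ht hs hall
  -- over `K`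
  set h₁ : K[X] := h.comp (C (algebraMap k[X] K (Q * D')) * X) with hh₁
  have hh₁' : aeval θ h₁ = α := by
    rw [hh₁, aeval_comp, map_mul, aeval_C, aeval_X, ← IsScalarTower.algebraMap_apply k[X] K L]
  obtain ⟨β', hβ'⟩ := ex_aeval hG β
  have hK : f.map (algebraMap k[X] K) ∣ C (algebraMap k[X] K c) * (h₁ * a₂.map (algebraMap k[X] K)) -
      β' ^ 2 * (C c + C Q * m).map (algebraMap k[X] K) := by
    refine dvd_of_aeval hG ?_
    rw [map_sub, map_mul, map_mul, map_mul, map_pow, aeval_C, hh₁', hβ', aeval_map_algebraMap,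
      aeval_map_algebraMap, aeval_def, aeval_def, eval₂_add, eval₂_mul, eval₂_C, eval₂_C,
      ← IsScalarTower.algebraMap_apply k[X] K L, hβ, sub_self]
  have hcoK : IsCoprime (a₂.map (algebraMap k[X] K)) (f.map (algebraMap k[X] K)) := by
    have h1 : eval₂ (algebraMap k[X] L) θ a₂ ≠ 0 := right_ne_zero_of_mul hne2
    obtain ⟨q, hq⟩ := ex_aeval hG (eval₂ (algebraMap k[X] L) θ a₂)⁻¹
    obtain ⟨w, hw⟩ := dvd_of_aeval hG (p := q * a₂.map (algebraMap k[X] K) - 1) (by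
      rw [map_sub, map_mul, hq, aeval_map_algebraMap, aeval_def, inv_mul_cancel₀ h1, map_one,
        sub_self])
    exact ⟨q, -w, by linear_combination hw⟩
  -- over the completion
  set ι := algebraMap k[X] (v.adicCompletionIntegers K) with hι
  set φ := algebraMap (v.adicCompletionIntegers K) (v.adicCompletion K) with hφ
  set ι' := algebraMap K (v.adicCompletion K) with hι'
  have hcomp : ι'.comp (algebraMap k[X] K) = φ.comp ι := rfl
  have hmm : ∀ p : k[X][X], (p.map (algebraMap k[X] K)).map ι' = (p.map ι).map φ := by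
    intro p
    rw [Polynomial.map_map, Polynomial.map_map, hcomp]
  have hunit : ∀ c : k[X], ¬ Q ∣ c → IsUnit (ι c) := by
    intro c hc
    rw [← IsLocalRing.notMem_maximalIdeal, Run7.h209.PL.mem_iff (K := K) hv]
    exact hc
  have h2R : IsUnit (2 : v.adicCompletionIntegers K) := by
    have h3 : IsUnit (C (2 : k)) := isUnit_C.2 (IsUnit.mk0 _ hF.two)
    have h4 := h3.map ι
    rwa [show (C 2 : k[X]) = 2 from rfl, map_ofNat] at h4
  haveI := Run7.h209.PL.adic (K := K) hv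
  obtain ⟨c', hc'⟩ := (hunit c hc).exists_right_inv
  obtain ⟨D₂, hD₂⟩ := (hunit D' hD').exists_right_inv
  have hD0 : φ (ι (Q * D')) ≠ 0 := by
    have h3 : Q * D' ≠ 0 := mul_ne_zero hQ.ne_zero (fun h => hD' (h ▸ dvd_zero _))
    have h4 : φ (ι (Q * D')) = ι' (algebraMap k[X] K (Q * D')) := rfl
    rw [h4, Ne, map_eq_zero, IsFractionRing.to_map_eq_zero_iff (R := k[X])]
    exact h3
  have hco : IsCoprime ((a₂.map ι).map φ) ((f.map ι).map φ) := by
    have h3 := hcoK.map (mapRingHom ι')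
    rw [coe_mapRingHom, hmm, hmm] at h3
    exact h3
  have hdv : (f.map ι).map φ ∣ h₁.map ι' * (a₂.map ι).map φ -
      (β'.map ι') ^ 2 * (1 + C (ι Q) * (C c' * m.map ι)).map φ := by
    have h3 := _root_.map_dvd (mapRingHom ι') hK
    rw [coe_mapRingHom, hmm, Polynomial.map_sub, Polynomial.map_mul, Polynomial.map_mul,
      Polynomial.map_mul, Polynomial.map_pow, hmm, hmm, map_C] at h3
    have h4 : (C c + C Q * m).map ι = C (ι c) * (1 + C (ι Q) * (C c' * m.map ι)) := by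
      rw [Polynomial.map_add, Polynomial.map_mul, map_C, map_C]
      have h5 : C (ι c) * C c' = (1 : (v.adicCompletionIntegers K)[X]) := by
        rw [← C_mul, hc', C_1]
      linear_combination (-(C (ι Q) * m.map ι)) * h5
    rw [h4, Polynomial.map_mul (f := φ), map_C] at h3
    have h5 : C (ι' (algebraMap k[X] K c)) = (C (φ (ι c)) : (v.adicCompletion K)[X]) := rfl
    rw [h5] at h3
    have h6 : IsUnit (C (φ (ι c)) : (v.adicCompletion K)[X]) := isUnit_C.2 ((hunit c hc).map φ)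
    have h7 : C (φ (ι c)) * (h₁.map ι' * (a₂.map ι).map φ) -
        (β'.map ι') ^ 2 * (C (φ (ι c)) * (1 + C (ι Q) * (C c' * m.map ι)).map φ) =
        C (φ (ι c)) * (h₁.map ι' * (a₂.map ι).map φ -
          (β'.map ι') ^ 2 * (1 + C (ι Q) * (C c' * m.map ι)).map φ) := by ring
    rw [h7, h6.dvd_mul_left] at h3
    exact h3
  obtain ⟨s, hs'⟩ := fin_R φ (Ideal.span {ι Q}) h2R (Ideal.mem_span_singleton_self _)
    (hG.mon.map ι) hF' (map_mul ι Q D') hD₂ hD0 hz hco hdv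
  have hFE : (f.map ι).map φ - C (φ (ι (Q * D'))) = a'.map φ * b'.map φ := by
    rw [← Polynomial.map_mul, ← hF', Polynomial.map_sub, map_C]
  have hh : h₁.map ι' = (h.map ι').comp (C (φ (ι (Q * D'))) * X) := by
    rw [hh₁, map_comp, Polynomial.map_mul, map_C, map_X]
    rfl
  rw [hh] at hs'
  obtain ⟨u, w, s₀, hu1, hu2, hu3, hu4, hu5⟩ := fin_E hD0 (g := g)
    (by rw [(hG.mon.map ι).natDegree_map, hG.mon.natDegree_map, hG.deg]) (ha'.map φ)
    (by rw [ha'.natDegree_map, hda']; exact hae) hFE hs'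
  have hsc : (f.scaleRoots (Q * D')).map (ι'.comp (algebraMap k[X] K)) =
      ((f.map ι).map φ).scaleRoots (φ (ι (Q * D'))) := by
    rw [map_scaleRoots _ _ _ (by rw [hG.mon.leadingCoeff, map_one]; exact one_ne_zero), hcomp,
      Polynomial.map_map]
    rfl
  refine ⟨[(u, w)], s₀, ?_, ?_⟩
  · intro p hp
    rw [List.mem_singleton] at hp
    subst hp
    rw [hsc]
    exact ⟨hu1, hu3, hu4⟩
  · rw [hsc, List.map_singleton, List.prod_singleton, hu2.neg_one_pow, one_mul]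
    exact hu5

end Run7.h711.PL
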