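import Pool.Agent.Run7.h286.PL.Stm
import Pool.Agent.Run7.h779.TG.Lin

/-!
# Project PRL (helper286), pieces LIN and POW (helper711)
-/

set_option autoImplicit false
set_option linter.all false

open Module
open scoped Classical

namespace Run7.h711.PL

open Run7.h875.TS (sqL sz)
open Run7.h286.PL
open Run7.h779.TG (exists_image orth_rank)

theorem T_LIN : P_LIN := by
  intro A _ ι β _ _ sq H R M Λ m π c hsqH hsqM hMR hR0 hH0 hΛ hΛM hm hmsq hc hcΛ horth hspan
  haveI : Fact (Nat.Prime 2) := ⟨Nat.prime_two⟩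
  obtain ⟨W₁, m1, i1⟩ := exists_image M R Λ hΛ hΛM
  obtain ⟨W₂, m2, i2⟩ := exists_image sq H m hm (fun x hx h0 => hspan x hx 0 fun i => by
    rw [h0]; simp)
  let T : (β → ZMod 2) →ₗ[ZMod 2] (ι → ZMod 2) :=
    { toFun := fun t i => t (π i) * c i
      map_add' := fun t t' => by
        funext i
        show (t (π i) + t' (π i)) * c i = t (π i) * c i + t' (π i) * c i
        ring
      map_smul' := fun a t => by
        funext i
        show (a * t (π i)) * c i = a * (t (π i) * c i)
        ring }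
  have hT : Function.Injective T := by
    rw [← LinearMap.ker_eq_bot, eq_bot_iff]
    intro t ht
    rw [Submodule.mem_bot]
    funext b
    obtain ⟨i, rfl, hi⟩ := hc b
    have h1 : t (π i) * c i = 0 := congrFun ht i
    exact (mul_eq_zero.1 h1).resolve_right hi
  have hT3 : finrank (ZMod 2) (LinearMap.range T) = Fintype.card β := by
    rw [LinearMap.finrank_range_of_inj hT, Module.finrank_fintype_fun_eq_card]
  have hdisj : W₂ ⊓ LinearMap.range T = ⊥ := by
    rw [eq_bot_iff]
    rintro w ⟨hw1, hw2⟩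
    rw [Submodule.mem_bot]
    obtain ⟨s, hs, rfl⟩ := (m2 w).1 hw1
    obtain ⟨t, ht⟩ := hw2
    exact hmsq s (hspan s hs t fun i => (congrFun ht i).symm)
  have h4 := orth_rank W₁ (W₂ ⊔ LinearMap.range T) (by
    intro x hx y hy
    obtain ⟨z, hz, rfl⟩ := (m1 x).1 hx
    obtain ⟨y1, hy1, y2, hy2, rfl⟩ := Submodule.mem_sup.1 hy
    obtain ⟨s, hs, rfl⟩ := (m2 y1).1 hy1
    obtain ⟨t, rfl⟩ := hy2
    have e1 : dotProduct (m s) (Λ z) = 0 := horth s hs z hz
    have e2 : dotProduct (T t) (Λ z) = 0 := by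
      show ∑ i, t (π i) * c i * Λ z i = 0
      rw [← Finset.sum_fiberwise (s := Finset.univ) (g := π)]
      refine Finset.sum_eq_zero fun b _ => ?_
      have e3 := hcΛ z hz b
      calc ∑ i ∈ Finset.univ.filter (fun i => π i = b), t (π i) * c i * Λ z i
          = ∑ i ∈ Finset.univ.filter (fun i => π i = b), t b * (c i * Λ z i) := by
            refine Finset.sum_congr rfl fun i hi => ?_
            rw [(Finset.mem_filter.1 hi).2, mul_assoc]
        _ = t b * ∑ i ∈ Finset.univ.filter (fun i => π i = b), c i * Λ z i := by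
            rw [Finset.mul_sum]
        _ = 0 := by rw [e3, mul_zero]
    rw [add_dotProduct, e1, e2, add_zero])
  have h5 := Submodule.finrank_sup_add_finrank_inf_eq W₂ (LinearMap.range T)
  rw [hdisj, finrank_bot, add_zero, hT3] at h5
  have h6 := Subgroup.relIndex_mul_relIndex sq M R hsqM hMR
  rw [← h6]
  have h7 : finrank (ZMod 2) W₁ + finrank (ZMod 2) W₂ ≤ Fintype.card ι - Fintype.card β := by omega
  calc sq.relIndex M * M.relIndex R * sq.relIndex H
      ≤ sq.relIndex M * 2 ^ finrank (ZMod 2) W₁ * 2 ^ finrank (ZMod 2) W₂ :=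
        Nat.mul_le_mul (Nat.mul_le_mul le_rfl i1) i2
    _ = 2 ^ (finrank (ZMod 2) W₁ + finrank (ZMod 2) W₂) * sq.relIndex M := by rw [pow_add]; ring
    _ ≤ 2 ^ (Fintype.card ι - Fintype.card β) * sq.relIndex M :=
        Nat.mul_le_mul_right _ (Nat.pow_le_pow_right (by norm_num) h7)

theorem T_POW : P_POW := by
  intro L _ G hG h0
  haveI : Fact (Nat.Prime 2) := ⟨Nat.prime_two⟩
  have h1 : sz G = Nat.card (G ⧸ (sqL L).subgroupOf G) := rfl
  haveI : Finite (G ⧸ (sqL L).subgroupOf G) := Nat.finite_of_card_ne_zero (by rw [← h1]; exact h0)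
  have h2 : IsPGroup 2 (G ⧸ (sqL L).subgroupOf G) := by
    intro x
    refine ⟨1, ?_⟩
    obtain ⟨y, rfl⟩ := QuotientGroup.mk_surjective x
    rw [pow_one, ← QuotientGroup.mk_pow, QuotientGroup.eq_one_iff, Subgroup.mem_subgroupOf]
    exact ⟨(y : Lˣ), rfl⟩
  obtain ⟨n, hn⟩ := IsPGroup.iff_card.1 h2
  have h4 : sz G = 2 ^ n := h1.trans hn
  have h3 : ld G = n := by
    show Nat.log 2 (sz G) = n
    rw [h4, Nat.log_pow (by norm_num)]
  rw [h3, h4]

end Run7.h711.PL
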