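import Pool.Agent.Run7.h286.PL.StmS
import Pool.Agent.Run7.h209.PL.Cmp
import Pool.Agent.Run7.h824.PL.HFC

/-!
# Project PRL (helper286), piece EQ2 (helper711): the algebra at the primes of the twist
-/

set_option autoImplicit false
set_option linter.all false

open Polynomial IsDedekindDomain
open scoped Classical

namespace Run7.h711.PL

section scale

variable {E : Type} [Field E]

theorem scale_eq {D : E} (hD : D ≠ 0) (p : E[X]) :
    p.scaleRoots D = C (D ^ p.natDegree) * p.comp (C D⁻¹ * X) := by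
  ext i
  rw [coeff_scaleRoots, coeff_C_mul, comp_C_mul_X_coeff]
  by_cases hi : i ≤ p.natDegree
  · obtain ⟨j, hj⟩ := Nat.exists_eq_add_of_le hi
    rw [hj, Nat.add_sub_cancel_left, pow_add]
    have h1 : D ^ i * D⁻¹ ^ i = 1 := by rw [← mul_pow, mul_inv_cancel₀ hD, one_pow]
    linear_combination (-(p.coeff i * D ^ j)) * h1
  · rw [coeff_eq_zero_of_natDegree_lt (not_le.1 hi)]; simp

theorem comp_inv {D : E} (hD : D ≠ 0) (p : E[X]) :
    (p.comp (C D * X)).comp (C D⁻¹ * X) = p := by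
  rw [comp_assoc, mul_comp, C_comp, X_comp, ← mul_assoc, ← C_mul, mul_inv_cancel₀ hD, C_1, one_mul,
    comp_X]

/-- The substitution `x ↦ x / D`. -/
theorem fin_E {D : E} (hD : D ≠ 0) {g : ℕ} {F a b h s : E[X]} (hFd : F.natDegree = 2 * g + 1)
    (ha : a.Monic) (hae : Even a.natDegree) (hab : F - C D = a * b)
    (hs : F ∣ h.comp (C D * X) * a - s ^ 2) :
    ∃ u w t : E[X], u.Monic ∧ Even u.natDegree ∧ IsCoprime u (F.scaleRoots D) ∧
      u ∣ w ^ 2 - F.scaleRoots D ∧ F.scaleRoots D ∣ h * u - t ^ 2 := by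
  obtain ⟨m, hm⟩ := hae
  obtain ⟨ψ, hψ⟩ : ∃ ψ : E[X] →+* E[X], ∀ p, ψ p = p.comp (C D⁻¹ * X) :=
    ⟨compRingHom (C D⁻¹ * X), fun p => rfl⟩
  have hψC : ∀ c : E, ψ (C c) = C c := fun c => by rw [hψ, C_comp]
  have hu : a.scaleRoots D = C (D ^ (m + m)) * ψ a := by rw [scale_eq hD, hψ, hm]
  have hF : F.scaleRoots D = C (D ^ (2 * g + 1)) * ψ F := by rw [scale_eq hD, hψ, hFd]
  have hunit : ∀ n : ℕ, IsUnit (C (D ^ n)) := fun n =>
    isUnit_C.2 (IsUnit.mk0 _ (pow_ne_zero n hD))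
  refine ⟨a.scaleRoots D, C (D ^ (g + 1)), C (D ^ m) * ψ s, (monic_scaleRoots_iff D).2 ha, ?_, ?_,
    ?_, ?_⟩
  · rw [natDegree_scaleRoots, hm]; exact ⟨m, rfl⟩
  · have h1 : IsCoprime a F := by
      refine ⟨-(C D⁻¹ * b), C D⁻¹, ?_⟩
      have h2 : C D⁻¹ * C D = (1 : E[X]) := by rw [← C_mul, inv_mul_cancel₀ hD, C_1]
      linear_combination C D⁻¹ * hab + h2
    have h2 := h1.map ψ
    rw [hu, hF, isCoprime_mul_unit_left_left (hunit _), isCoprime_mul_unit_left_right (hunit _)]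
    exact h2
  · have h1 : ψ F - C D = ψ a * ψ b := by
      rw [← map_mul, ← hab, map_sub, hψC]
    have h2 : C ((D ^ (m + m))⁻¹) * C (D ^ (m + m)) = (1 : E[X]) := by
      rw [← C_mul, inv_mul_cancel₀ (pow_ne_zero _ hD), C_1]
    refine ⟨-(C (D ^ (2 * g + 1)) * C ((D ^ (m + m))⁻¹) * ψ b), ?_⟩
    rw [hu, hF]
    have h3 : (C (D ^ (g + 1)) : E[X]) ^ 2 = C (D ^ (2 * g + 1)) * C D := by
      rw [← C_pow, ← C_mul]
      congr 1
      ring
    linear_combination h3 - C (D ^ (2 * g + 1)) * h1 + C (D ^ (2 * g + 1)) * ψ a * ψ b * h2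
  · obtain ⟨q, hq⟩ := hs
    have h1 := congrArg ψ hq
    rw [map_sub, map_mul, map_mul, map_pow, hψ (h.comp _), comp_inv hD] at h1
    have h2 : C ((D ^ (2 * g + 1))⁻¹) * C (D ^ (2 * g + 1)) = (1 : E[X]) := by
      rw [← C_mul, inv_mul_cancel₀ (pow_ne_zero _ hD), C_1]
    refine ⟨C (D ^ (m + m)) * C ((D ^ (2 * g + 1))⁻¹) * ψ q, ?_⟩
    rw [hu, hF]
    have h3 : (C (D ^ m) : E[X]) ^ 2 = C (D ^ (m + m)) := by
      rw [← C_pow]
      congr 1
      ring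
    linear_combination C (D ^ (m + m)) * h1 - (ψ s) ^ 2 * h3 -
      C (D ^ (m + m)) * ψ F * ψ q * h2

end scale

section comp

variable {R E : Type} [CommRing R] [Field E]

theorem coeff_mem_of_C {I : Ideal R} {x : R} (hx : x ∈ I) (p : R[X]) (j : ℕ) :
    (C x * p).coeff j ∈ I := by
  rw [coeff_C_mul]
  exact I.mul_mem_right _ hx

/-- From the approximate factor to the exact one. -/
theorem fin_R (φ : R →+* E) (I : Ideal R) [IsAdicComplete I R] (h2 : IsUnit (2 : R))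
    {F a a₂ b z m₁ : R[X]} {ϖ D D₁ D₂ : R} (hϖ : ϖ ∈ I) (hF : F.Monic) (hab : F - C D = a * b)
    (hD : D = ϖ * D₁) (hD12 : D₁ * D₂ = 1) (hD0 : φ D ≠ 0) (haz : a = a₂ + C (ϖ ^ 2) * z)
    {h₁ β : E[X]} (hco : IsCoprime (a₂.map φ) (F.map φ))
    (hdv : F.map φ ∣ h₁ * a₂.map φ - β ^ 2 * (1 + C ϖ * m₁).map φ) :
    ∃ s : E[X], F.map φ ∣ h₁ * a.map φ - s ^ 2 := by
  have hsq : ∀ m : R[X], ∃ s' q' : R[X], 1 + C ϖ * m = s' ^ 2 + F * q' := by
    intro m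
    refine Run7.h824.PL.T_HSQ R I h2 F (1 + C ϖ * m) 1 0 hF ?_ ⟨1, 0, ?_⟩
    · intro j
      have e : 1 + C ϖ * m - 1 ^ 2 - F * 0 = C ϖ * m := by ring
      rw [e]
      exact coeff_mem_of_C hϖ m j
    · intro j
      have e : 1 * (1 + C ϖ * m) + 0 * F - 1 = C ϖ * m := by ring
      rw [e]
      exact coeff_mem_of_C hϖ m j
  obtain ⟨s', q', h3⟩ := hsq m₁
  obtain ⟨s₂, q₂, h4⟩ := hsq (C D₂ * z * b)
  -- `a₂ ≡ a s₂ ^ 2`
  have h5 : C D * (a₂ - a * s₂ ^ 2) = F * (a₂ - a + C D * a * q₂) := by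
    have e1 : C D = C ϖ * C D₁ := by rw [hD, C_mul]
    have e2 : C D₁ * C D₂ = (1 : R[X]) := by rw [← C_mul, hD12, C_1]
    have e3 : (C (ϖ ^ 2) : R[X]) = C ϖ ^ 2 := by rw [C_pow]
    rw [e3] at haz
    have h6 : a₂ * b = F - C D * (s₂ ^ 2 + F * q₂) := by
      rw [← h4]
      have : a * b = (a₂ + C ϖ ^ 2 * z) * b := by rw [← haz]
      linear_combination -hab - this + C ϖ ^ 2 * z * b * e2 + C ϖ * C D₂ * z * b * e1
    linear_combination (-a₂) * hab - a * h6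
  have h6 : a₂.map φ = a.map φ * (s₂.map φ) ^ 2 +
      F.map φ * (C (φ D)⁻¹ * (a₂ - a + C D * a * q₂).map φ) := by
    have h7 := congrArg (Polynomial.map φ) h5
    rw [Polynomial.map_mul, Polynomial.map_mul, Polynomial.map_sub, Polynomial.map_mul,
      Polynomial.map_pow, map_C] at h7
    have h8 : C (φ D)⁻¹ * C (φ D) = (1 : E[X]) := by
      rw [← C_mul, inv_mul_cancel₀ hD0, C_1]
    linear_combination C (φ D)⁻¹ * h7 - (a₂.map φ - a.map φ * (s₂.map φ) ^ 2) * h8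
  set r := C (φ D)⁻¹ * (a₂ - a + C D * a * q₂).map φ with hr
  have h7 : IsCoprime (s₂.map φ) (F.map φ) := by
    obtain ⟨x, y, hxy⟩ := hco
    refine ⟨x * a.map φ * s₂.map φ, y + x * r, ?_⟩
    linear_combination hxy - x * h6
  obtain ⟨t, w, htw⟩ := h7
  obtain ⟨q₀, hq₀⟩ := hdv
  have h8 : (1 + C ϖ * m₁).map φ = s'.map φ ^ 2 + F.map φ * q'.map φ := by
    rw [h3, Polynomial.map_add, Polynomial.map_pow, Polynomial.map_mul]
  refine ⟨β * s'.map φ * t, ?_⟩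
  rw [h8] at hq₀
  refine ⟨(q₀ - h₁ * r + β ^ 2 * q'.map φ) * t ^ 2 + h₁ * a.map φ * (2 * w - w ^ 2 * F.map φ), ?_⟩
  have h9 : (t * s₂.map φ) ^ 2 = 1 - F.map φ * (2 * w - w ^ 2 * F.map φ) := by
    have : t * s₂.map φ = 1 - w * F.map φ := by linear_combination htw
    rw [this]; ring
  linear_combination t ^ 2 * hq₀ - h₁ * t ^ 2 * h6 - h₁ * a.map φ * h9

end comp

end Run7.h711.PL
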