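import Pool.Agent.Run7.h711.PL.EQ2A

/-!
# Project PRL (helper286), piece EQ2 (helper711): Hensel's lemma at the primes of the twist
-/

set_option autoImplicit false
set_option linter.all false

open Polynomial IsDedekindDomain
open scoped Classical

namespace Run7.h711.PL

section hens

variable {A K : Type} [CommRing A] [IsDedekindDomain A] [Field K] [Algebra A K] [IsFractionRing A K]
  {v : HeightOneSpectrum A} {Q : A}

theorem dvd1 (hv : v.asIdeal = Ideal.span {Q}) {c : A[X]} {z : (v.adicCompletionIntegers K)[X]}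
    (h : c.map (algebraMap A (v.adicCompletionIntegers K)) =
      C (algebraMap A (v.adicCompletionIntegers K) Q) * z) : ∃ c₁ : A[X], c = C Q * c₁ := by
  have : C Q ∣ c := by
    rw [C_dvd_iff_dvd_coeff]
    intro i
    have h1 := congrArg (fun p => coeff p i) h
    simp only [coeff_map, coeff_C_mul] at h1
    rw [← Run7.h209.PL.mem_iff (K := K) hv, Run7.h209.PL.maxIdeal (K := K) hv, h1]
    exact Ideal.mul_mem_right _ _ (Ideal.mem_span_singleton_self _)
  exact this

theorem ne_zero_Q (hv : v.asIdeal = Ideal.span {Q}) : Q ≠ 0 := by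
  rintro rfl
  exact v.ne_bot (by rw [hv]; simp)

theorem iota_ne (hv : v.asIdeal = Ideal.span {Q}) :
    algebraMap A (v.adicCompletionIntegers K) Q ≠ 0 := by
  intro h0
  have h1 := Run7.h209.PL.v_unif (K := K) hv
  have h2 : algebraMap A (v.adicCompletion K) Q = 0 := by
    rw [← Run7.h209.PL.coe_algebraMap, h0]
    rfl
  rw [h2, map_zero] at h1
  exact WithZero.exp_ne_zero h1.symm

theorem dvd2 (hv : v.asIdeal = Ideal.span {Q}) {c : A[X]} {z : (v.adicCompletionIntegers K)[X]}
    (h : c.map (algebraMap A (v.adicCompletionIntegers K)) =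
      C ((algebraMap A (v.adicCompletionIntegers K) Q) ^ 2) * z) :
    ∃ c₂ : A[X], c = C (Q ^ 2) * c₂ := by
  obtain ⟨c₁, hc₁⟩ := dvd1 (K := K) hv (c := c)
    (z := C (algebraMap A (v.adicCompletionIntegers K) Q) * z) (by rw [h, C_pow]; ring)
  have h1 : c₁.map (algebraMap A (v.adicCompletionIntegers K)) =
      C (algebraMap A (v.adicCompletionIntegers K) Q) * z := by
    have h2 : (C (algebraMap A (v.adicCompletionIntegers K) Q) : (v.adicCompletionIntegers K)[X]) ≠ 0 := by
      rw [Ne, C_eq_zero]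
      exact iota_ne hv
    refine mul_left_cancel₀ h2 ?_
    rw [hc₁, Polynomial.map_mul, map_C, C_pow] at h
    rw [h]; ring
  obtain ⟨c₂, hc₂⟩ := dvd1 (K := K) hv h1
  exact ⟨c₂, by rw [hc₁, hc₂, C_pow]; ring⟩

theorem lift1 (hv : v.asIdeal = Ideal.span {Q}) (p : (v.adicCompletionIntegers K)[X]) :
    ∃ (p₀ : A[X]) (z : (v.adicCompletionIntegers K)[X]),
      p = p₀.map (algebraMap A (v.adicCompletionIntegers K)) +
        C (algebraMap A (v.adicCompletionIntegers K) Q) * z := by
  have hs : Function.Surjective ((Ideal.Quotient.mk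
      (Ideal.span {algebraMap A (v.adicCompletionIntegers K) Q})).comp
      (algebraMap A (v.adicCompletionIntegers K))) := by
    intro y
    obtain ⟨x, rfl⟩ := Ideal.Quotient.mk_surjective y
    obtain ⟨a, ha⟩ := Run7.h209.PL.near_A (K := K) x
    rw [Run7.h209.PL.maxIdeal (K := K) hv] at ha
    exact ⟨a, ((Ideal.Quotient.mk_eq_mk_iff_sub_mem _ _).2 ha).symm⟩
  obtain ⟨p₀, hp₀⟩ := Polynomial.map_surjective _ hs (p.map (Ideal.Quotient.mk
      (Ideal.span {algebraMap A (v.adicCompletionIntegers K) Q})))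
  have h1 : C (algebraMap A (v.adicCompletionIntegers K) Q) ∣
      p - p₀.map (algebraMap A (v.adicCompletionIntegers K)) := by
    rw [C_dvd_iff_dvd_coeff]
    intro i
    have h2 := congrArg (fun p => coeff p i) hp₀
    simp only [coeff_map, RingHom.comp_apply] at h2
    rw [coeff_sub, coeff_map, ← Ideal.mem_span_singleton]
    exact (Ideal.Quotient.mk_eq_mk_iff_sub_mem _ _).1 h2.symm
  obtain ⟨z, hz⟩ := h1
  exact ⟨p₀, z, by rw [← hz]; ring⟩

theorem lift2 (hv : v.asIdeal = Ideal.span {Q}) (p : (v.adicCompletionIntegers K)[X]) :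
    ∃ (p₀ : A[X]) (z : (v.adicCompletionIntegers K)[X]),
      p = p₀.map (algebraMap A (v.adicCompletionIntegers K)) +
        C ((algebraMap A (v.adicCompletionIntegers K) Q) ^ 2) * z := by
  obtain ⟨p₀, z, h1⟩ := lift1 hv p
  obtain ⟨p₁, z', h2⟩ := lift1 hv z
  refine ⟨p₀ + C Q * p₁, z', ?_⟩
  rw [Polynomial.map_add, Polynomial.map_mul, map_C, C_pow, h1]
  linear_combination C (algebraMap A (v.adicCompletionIntegers K) Q) * h2

theorem hens (hv : v.asIdeal = Ideal.span {Q}) {f a b x y c₁ c₂ : A[X]} {D' : A} (hf : f.Monic)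
    (ha : a.Monic) (hb : b.Monic) (hd : f.natDegree = a.natDegree + b.natDegree)
    (hd1 : 1 ≤ f.natDegree) (hab : f - a * b = C Q * c₁) (hxy : x * a + y * b - 1 = C Q * c₂) :
    ∃ (a' b' z : (v.adicCompletionIntegers K)[X]) (a₂ b₂ d₁ d₂ d₃ : A[X]), a'.Monic ∧
      a'.natDegree = a.natDegree ∧
      f.map (algebraMap A (v.adicCompletionIntegers K)) -
        C (algebraMap A (v.adicCompletionIntegers K) (Q * D')) = a' * b' ∧
      a' = a₂.map (algebraMap A (v.adicCompletionIntegers K)) +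
        C ((algebraMap A (v.adicCompletionIntegers K) Q) ^ 2) * z ∧
      a₂ - a = C Q * d₁ ∧ b₂ - b = C Q * d₂ ∧ f - C (Q * D') - a₂ * b₂ = C (Q ^ 2) * d₃ := by
  haveI := Run7.h209.PL.adic (K := K) hv
  set ι := algebraMap A (v.adicCompletionIntegers K) with hι
  set I := Ideal.span {ι Q} with hI
  have hQI : ι Q ∈ I := Ideal.mem_span_singleton_self _
  have hC : ∀ (p : (v.adicCompletionIntegers K)[X]) (j : ℕ), (C (ι Q) * p).coeff j ∈ I :=
    fun p j => coeff_mem_of_C hQI p j
  have hCd : ∀ (p : (v.adicCompletionIntegers K)[X]), (∀ j, p.coeff j ∈ I) →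
      ∃ q, p = C (ι Q) * q := by
    intro p hp
    have : C (ι Q) ∣ p := by
      rw [C_dvd_iff_dvd_coeff]
      intro i
      exact Ideal.mem_span_singleton.1 (hp i)
    exact this
  have hfd : (f.map ι).natDegree = f.natDegree := hf.natDegree_map _
  have hFm : (f.map ι - C (ι (Q * D'))).Monic := by
    refine (hf.map ι).sub_of_left (lt_of_le_of_lt degree_C_le ?_)
    rw [← natDegree_pos_iff_degree_pos, hfd]
    exact hd1
  have e1 : f.map ι - a.map ι * b.map ι = C (ι Q) * c₁.map ι := by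
    rw [← Polynomial.map_mul, ← Polynomial.map_sub, hab, Polynomial.map_mul, map_C]
  have e2 : x.map ι * a.map ι + y.map ι * b.map ι - 1 = C (ι Q) * c₂.map ι := by
    have := congrArg (Polynomial.map ι) hxy
    rw [Polynomial.map_sub, Polynomial.map_add, Polynomial.map_mul, Polynomial.map_mul,
      Polynomial.map_one, Polynomial.map_mul, map_C] at this
    exact this
  obtain ⟨a', b', hma, hmb, hda, hF, hca, hcb⟩ := Run7.h824.PL.T_HFC _ I
    (f.map ι - C (ι (Q * D'))) (a.map ι) (b.map ι) hFm (ha.map ι) (hb.map ι) (by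
      rw [natDegree_sub_C, hfd, ha.natDegree_map, hb.natDegree_map, hd]) (by
      intro j
      have e3 : f.map ι - C (ι (Q * D')) - a.map ι * b.map ι =
          C (ι Q) * (c₁.map ι - C (ι D')) := by
        rw [map_mul ι Q D', C_mul]
        linear_combination e1
      rw [e3]
      exact hC _ j) ⟨x.map ι, y.map ι, by
      intro j
      rw [e2]
      exact hC _ j⟩
  obtain ⟨w₁, hw₁⟩ := hCd _ hca
  obtain ⟨w₂, hw₂⟩ := hCd _ hcb
  obtain ⟨a₂, z, hz⟩ := lift2 hv a'
  obtain ⟨b₂, z', hz'⟩ := lift2 hv b'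
  obtain ⟨d₁, hd₁⟩ := dvd1 (K := K) hv (c := a₂ - a) (z := w₁ - C (ι Q) * z) (by
    rw [Polynomial.map_sub]
    rw [C_pow] at hz
    linear_combination hw₁ - hz)
  obtain ⟨d₂, hd₂⟩ := dvd1 (K := K) hv (c := b₂ - b) (z := w₂ - C (ι Q) * z') (by
    rw [Polynomial.map_sub]
    rw [C_pow] at hz'
    linear_combination hw₂ - hz')
  obtain ⟨d₃, hd₃⟩ := dvd2 (K := K) hv (c := f - C (Q * D') - a₂ * b₂)
    (z := z * b₂.map ι + a₂.map ι * z' + C ((ι Q) ^ 2) * z * z') (by
    rw [Polynomial.map_sub, Polynomial.map_sub, Polynomial.map_mul, map_C, hF, hz, hz']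
    ring)
  exact ⟨a', b', z, a₂, b₂, d₁, d₂, d₃, hma, by rw [hda, ha.natDegree_map], hF, hz, hd₁, hd₂, hd₃⟩

end hens

end Run7.h711.PL
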