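import Pool.Agent.Run7.h711.PL.Size

/-!
# Project PRL (helper711): parity and tails
-/

set_option autoImplicit false
set_option linter.all false

open Polynomial IsDedekindDomain Filter
open scoped Classical Topology

namespace Run7.h711.PL

open Pool.Agent.N352.PJ (dsc)
open Run7.h784.TG (Fm)
open Run7.h286.PL (wt Lw rkJ Twu)

/-- The indicator function of a property. -/
noncomputable def ind (P : ℕ → Prop) (s : ℕ) : ℝ := if P s then 1 else 0

theorem ind_pos {P : ℕ → Prop} {s : ℕ} (h : P s) : ind P s = 1 := if_pos h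

theorem ind_neg {P : ℕ → Prop} {s : ℕ} (h : ¬ P s) : ind P s = 0 := if_neg h

section

variable {k : Type} [Field k] (K : Type) [Field K] [Algebra k[X] K] [IsFractionRing k[X] K]

/-- The proportion of a property of `s` is the mean of its indicator function. -/
theorem prop_of [Finite k] {g N : ℕ} {r : k[X]} {f : k[X][X]} (hf : Fm g N r f) {u : k} (hu : u ≠ 0)
    (P : ℕ → Prop) : Tendsto (fun m => (({D ∈ Twu g f u m |
      P (Nat.log 2 (size k ((f.scaleRoots D).map (algebraMap k[X] K))))} : Set k[X]).ncard : ℝ) /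
      ((Twu g f u m).ncard : ℝ)) atTop (𝓝 (Lw (ind P))) := by
  have h := mean K hf hu (fun n => ind P (Nat.log 2 n))
    (ind P) (fun d => by rw [Nat.log_pow (by norm_num)])
    ⟨1, 1, fun d => by
      by_cases h : P d
      · rw [ind_pos h]; norm_num
      · rw [ind_neg h]; norm_num⟩
  refine h.congr fun m => ?_
  congr 1
  have hfin := Run7.h286.PL.twu_fin hf hu m
  unfold ind
  rw [finsum_mem_eq_finite_toFinset_sum _ hfin, Finset.sum_boole]
  congr 1
  rw [← Set.ncard_coe_finset]
  congr 1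
  ext D
  simp

/-- The values of the indicator functions. -/
theorem Lw_ind (P : ℕ → Prop) :
    Lw (ind P) = ∑' s, (wt s / ∑' i, wt i) * ind P s := by
  unfold Lw
  rw [← tsum_div_const]
  refine tsum_congr fun s => ?_
  ring

theorem Lw_add {φ ψ : ℕ → ℝ} (h1 : Summable fun s => wt s * φ s) (h2 : Summable fun s => wt s * ψ s) :
    Lw (fun s => φ s + ψ s) = Lw φ + Lw ψ := by
  unfold Lw
  rw [← add_div, ← h1.tsum_add h2]
  congr 2
  ext s
  ring

theorem wt_sum : Summable wt := Run7.h160.PL.summable_wt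

theorem tot_pos : 0 < ∑' i, wt i := wt_sum.tsum_pos (fun i => (Run7.h160.PL.wt_pos i).le) 0
  (Run7.h160.PL.wt_pos 0)

/-- Half of the dimensions are even. -/
theorem half : Lw (ind Even) = 1 / 2 := by
  have h1 := Run7.h547.PL.qid.2.2.1
  have h2 : Lw (fun _ => 1) = 1 := by
    unfold Lw
    simp only [mul_one]
    exact div_self tot_pos.ne'
  have hs : Summable fun s => wt s * (-1 : ℝ) ^ s := Run7.h547.PL.qid.1 (-1)
  have hs1 : Summable fun s => wt s * (1 : ℝ) := by simpa using wt_sum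
  have h3 := Lw_add hs1 hs
  rw [h1, h2, add_zero] at h3
  have h4 : Lw (fun s => 1 + (-1 : ℝ) ^ s) = 2 * Lw (ind Even) := by
    unfold Lw
    rw [← mul_div_assoc, ← tsum_mul_left]
    congr 1
    refine tsum_congr fun s => ?_
    show wt s * (1 + (-1) ^ s) = 2 * (wt s * ind Even s)
    by_cases h : Even s
    · rw [ind_pos h, h.neg_one_pow]; ring
    · rw [ind_neg h, (Nat.not_even_iff_odd.1 h).neg_one_pow]; ring
  rw [h4] at h3
  linarith

theorem sq_two (s : ℕ) : IsSquare (2 ^ s : ℕ) ↔ Even s := by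
  constructor
  · rintro ⟨a, ha⟩
    have h1 : a ∣ 2 ^ s := ⟨a, ha⟩
    obtain ⟨j, -, rfl⟩ := (Nat.dvd_prime_pow Nat.prime_two).1 h1
    rw [← pow_add] at ha
    exact ⟨j, Nat.pow_right_injective le_rfl ha⟩
  · rintro ⟨j, rfl⟩
    exact ⟨2 ^ j, by rw [← pow_add]⟩

/-- Half of the `S(D)` are squares. -/
theorem parity [Finite k] {g N : ℕ} {r : k[X]} {f : k[X][X]} (hf : Fm g N r f) {u : k} (hu : u ≠ 0) :
    Tendsto (fun m => (({D ∈ Twu g f u m |
      IsSquare (size k ((f.scaleRoots D).map (algebraMap k[X] K)))} : Set k[X]).ncard : ℝ) /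
      ((Twu g f u m).ncard : ℝ)) atTop (𝓝 (1 / 2)) := by
  rw [← half]
  refine (prop_of K hf hu Even).congr fun m => ?_
  congr 3
  ext D
  refine and_congr_right fun hD => ?_
  rw [(one K hf hu hD).1, Nat.log_pow (by norm_num), sq_two]

/-- The tails. -/
theorem tail (r : ℕ) : Lw (ind fun s => r ≤ s) =
    1 - ∑ s ∈ Finset.range r, wt s / ∑' i, wt i := by
  have h1 := (wt_sum.hasSum.div_const (∑' i, wt i))
  rw [div_self tot_pos.ne'] at h1
  have h2 := h1.summable.sum_add_tsum_compl (s := Finset.range r)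
  rw [h1.tsum_eq] at h2
  rw [Lw_ind, ← h2, add_sub_cancel_left, tsum_subtype (((Finset.range r : Finset ℕ) : Set ℕ)ᶜ)
    (fun s => wt s / ∑' i, wt i)]
  refine tsum_congr fun s => ?_
  rw [Set.indicator_apply]
  by_cases h : r ≤ s
  · rw [ind_pos h, mul_one, if_pos (by simpa using h)]
  · rw [ind_neg h, mul_zero, if_neg (by simpa using h)]

/-- The proportion of the `D` with `S(D) ≥ 2 ^ s`. -/
theorem atLeast [Finite k] {g N : ℕ} {r : k[X]} {f : k[X][X]} (hf : Fm g N r f) {u : k} (hu : u ≠ 0)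
    (s : ℕ) : Tendsto (fun m => (({D ∈ Twu g f u m |
      2 ^ s ≤ size k ((f.scaleRoots D).map (algebraMap k[X] K))} : Set k[X]).ncard : ℝ) /
      ((Twu g f u m).ncard : ℝ)) atTop (𝓝 (1 - ∑ i ∈ Finset.range s, wt i / ∑' j, wt j)) := by
  rw [← tail]
  refine (prop_of K hf hu fun i => s ≤ i).congr fun m => ?_
  congr 3
  ext D
  refine and_congr_right fun hD => ?_
  rw [(one K hf hu hD).1, Nat.log_pow (by norm_num), Nat.pow_le_pow_iff_right (by norm_num)]

end

end Run7.h711.PL
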