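import Pool.Agent.Run7.h711.PL.Tail
import Pool.Agent.Run7.h886.PL.Bnd

/-!
# Project PRL (helper711): all the Selmer groups `Sel(J, n)`, density one

The bound for `#Sel(J, 2 ^ n)` is in `Run7/h886/PL/Bnd.lean` (helper886).
-/

set_option autoImplicit false
set_option linter.all false

open Polynomial IsDedekindDomain Filter
open scoped Classical Topology

namespace Run7.h711.PL

open Pool.Agent.Y713.Jac (J)
open Pool.Agent.N352.PJ (dsc)
open Pool.Agent.N352.Sha (Cochain act IsCocycle UniquelyDivisible ShaTrivial)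
open Run7.h784.TG (Fm)
open Run7.h286.PL (wt Lw rkJ Twu)
open Run7.h286.SelDef (IsZeroEverywhere ShaTwo twoIndex NoTwoTorsion)

section

variable (k : Type) {K : Type} [Field k] [Field K] [Algebra k[X] K] [IsFractionRing k[X] K]
  (n : ℕ) {F : K[X]} {Ω : Type} [Field Ω] [Algebra K Ω]

/-- The continuous cocycle `c` has values in `J[n]`, `J` the Jacobian of `y ^ 2 = F(x)`, and its class in
`H ^ 1 (E, J)` is zero for the completions `E` of `K` at all places. -/
structure IsSelmer (c : Cochain 2 F Ω) : Prop where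
  cocycle : IsCocycle c
  torsion : ∀ σ, c σ ^ n = 1
  everywhere : IsZeroEverywhere k c

variable (F Ω)

/-- The classes in `H ^ 1 (K, J[n])` of the cocycles in `IsSelmer`, where `Ω` is the separable closure of
`K`. -/
def SelmerFor : Type :=
  Quot fun c c' : {c : Cochain 2 F Ω // IsSelmer k n c} =>
    ∃ R : J 2 F Ω, R ^ n = 1 ∧ ∀ σ, c.1 σ = c'.1 σ * (act 2 F σ R / R)

end

section

variable (k : Type) {K : Type} [Field k] [Field K] [Algebra k[X] K] [IsFractionRing k[X] K]

/-- The Selmer group `Sel(J, n)` of the Jacobian `J` of `y ^ 2 = F(x)` over `K = k(t)`: the set of the classes in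
`H ^ 1 (K, J[n])` which are zero in `H ^ 1 (K_v, J)` for all places `v` of `K`. -/
def Selmer (n : ℕ) (F : K[X]) : Type := SelmerFor k n F (SeparableClosure K)

/-- The binary logarithm of the order of `Sel(J, 2)`. -/
noncomputable def selmerRank (F : K[X]) : ℕ := Nat.log 2 (Nat.card (Selmer k 2 F))

theorem sel_equiv (n : ℕ) (F : K[X]) :
    Nonempty (Selmer k n F ≃ Run7.h886.PL.SelN F n (Run7.h286.PLC.AllPl k K)) := by
  have h : ∀ c : Cochain 2 F (SeparableClosure K), IsSelmer k n c ↔
      Run7.h886.PL.SelCocN F n (Run7.h286.PLC.AllPl k K) c := by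
    intro c
    refine ⟨fun h => ⟨h.cocycle, h.torsion, fun E _ _ hE =>
      (Run7.h286.SelDef.zero_iff k).1 h.everywhere E hE⟩,
      fun h => ⟨h.coc, h.tor, (Run7.h286.SelDef.zero_iff k).2 h.loc⟩⟩
  exact ⟨Quot.congr (Equiv.subtypeEquivRight h) fun _ _ => Iff.rfl⟩

theorem card_two (F : K[X]) :
    Nat.card (Selmer k 2 F) = Nat.card (Run7.h286.SelDef.Selmer k F) := by
  obtain ⟨e⟩ := sel_equiv k 2 F
  rw [Nat.card_congr e, Run7.h886.PL.card_selN, Run7.h286.SelDef.card_selmer]

end

section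

variable {k : Type} [Field k] (K : Type) [Field K] [Algebra k[X] K] [IsFractionRing k[X] K]

/-- The facts on one twist, with all Selmer groups. -/
theorem one_all [Finite k] {g N : ℕ} {r : k[X]} {f : k[X][X]} (hf : Fm g N r f) {u : k} (hu : u ≠ 0)
    {m : ℕ} {D : k[X]} (hD : D ∈ Twu g f u m) :
    selmerRank k ((f.scaleRoots D).map (algebraMap k[X] K)) = rkJ K (f.scaleRoots D) ∧
    Nat.card (Selmer k 2 ((f.scaleRoots D).map (algebraMap k[X] K))) =
      2 ^ rkJ K (f.scaleRoots D) ∧
    Nat.card (Selmer k 2 ((f.scaleRoots D).map (algebraMap k[X] K))) =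
      size k ((f.scaleRoots D).map (algebraMap k[X] K)) ∧
    ∀ n : ℕ, Finite (Selmer k (2 ^ n) ((f.scaleRoots D).map (algebraMap k[X] K))) ∧
      Nat.card (Selmer k (2 ^ n) ((f.scaleRoots D).map (algebraMap k[X] K))) ≤
        2 ^ (n * rkJ K (f.scaleRoots D)) := by
  obtain ⟨h1, h2⟩ := Run7.h286.SelDef.one_tw hf K hu hD
  have h3 : size k ((f.scaleRoots D).map (algebraMap k[X] K)) =
      Nat.card (Run7.h286.SelDef.Selmer k ((f.scaleRoots D).map (algebraMap k[X] K))) :=
    h2.sequence.symm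
  have h4 : Nat.card (Selmer k 2 ((f.scaleRoots D).map (algebraMap k[X] K))) =
      2 ^ rkJ K (f.scaleRoots D) := by
    rw [card_two, h2.order, h1]
  have hD0 : D ≠ 0 := by
    rintro rfl
    exact hu (by rw [← hD.1, leadingCoeff_zero])
  refine ⟨?_, h4, by rw [card_two, h3], fun n => ?_⟩
  · unfold selmerRank
    rw [h4, Nat.log_pow (by norm_num)]
  obtain ⟨e⟩ := sel_equiv k (2 ^ n) ((f.scaleRoots D).map (algebraMap k[X] K))
  obtain ⟨e2⟩ := sel_equiv k 2 ((f.scaleRoots D).map (algebraMap k[X] K))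
  have hfin2 : Finite (Run7.h886.PL.SelN ((f.scaleRoots D).map (algebraMap k[X] K)) 2
      (Run7.h286.PLC.AllPl k K)) := by
    refine Nat.finite_of_card_ne_zero ?_
    rw [← Nat.card_congr e2, h4]
    positivity
  obtain ⟨h6, h7⟩ := Run7.h886.PL.card_pow (Run7.h886.PL.good_tw K hf hD0)
    (Run7.h286.PLC.AllPl k K) hfin2 n
  refine ⟨Finite.of_equiv _ e.symm, ?_⟩
  rw [Nat.card_congr e]
  refine h7.trans (le_of_eq ?_)
  rw [← Nat.card_congr e2, h4, ← pow_mul, mul_comm]

theorem twu_fin' [Finite k] {g N : ℕ} {r : k[X]} {f : k[X][X]} (hf : Fm g N r f) {u : k}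
    (hu : u ≠ 0) (m : ℕ) : (Twu g f u m).Finite := Run7.h286.PL.twu_fin hf hu m

/-- The proportion of the twists with a property of the rank of the 2-Selmer group. -/
theorem prop_rank [Finite k] {g N : ℕ} {r : k[X]} {f : k[X][X]} (hf : Fm g N r f) {u : k}
    (hu : u ≠ 0) (P : ℕ → Prop) : Tendsto (fun m => (({D ∈ Twu g f u m |
      P (selmerRank k ((f.scaleRoots D).map (algebraMap k[X] K)))} : Set k[X]).ncard : ℝ) /
      ((Twu g f u m).ncard : ℝ)) atTop (𝓝 (Lw (ind P))) := by
  refine (prop_of K hf hu P).congr fun m => ?_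
  congr 3
  ext D
  refine and_congr_right fun hD => ?_
  rw [(one K hf hu hD).1, Nat.log_pow (by norm_num), (one_all K hf hu hD).1]

/-- The mean of a function of the rank of the 2-Selmer group. -/
theorem mean_rank [Finite k] {g N : ℕ} {r : k[X]} {f : k[X][X]} (hf : Fm g N r f) {u : k}
    (hu : u ≠ 0) (φ : ℕ → ℝ) (hφ : ∃ C y : ℝ, ∀ d, |φ d| ≤ C * y ^ d) :
    Tendsto (fun m => (∑ᶠ D ∈ Twu g f u m,
      φ (selmerRank k ((f.scaleRoots D).map (algebraMap k[X] K)))) /
      ((Twu g f u m).ncard : ℝ)) atTop (𝓝 (Lw φ)) := by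
  refine (mean K hf hu (fun n => φ (Nat.log 2 n)) φ (fun d => by rw [Nat.log_pow (by norm_num)])
    hφ).congr fun m => ?_
  congr 1
  refine finsum_congr fun D => ?_
  by_cases hD : D ∈ Twu g f u m
  · simp only [hD, finsum_true]
    rw [(one K hf hu hD).1, Nat.log_pow (by norm_num), (one_all K hf hu hD).1]
  · simp only [hD, finsum_false]

/-- Density one: for every function `w` which tends to infinity, the rank is at most `w(m)` for almost
all twists. -/
theorem dens [Finite k] {g N : ℕ} {r : k[X]} {f : k[X][X]} (hf : Fm g N r f) {u : k}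
    (hu : u ≠ 0) (w : ℕ → ℕ) (hw : Tendsto w atTop atTop) : Tendsto (fun m => (({D ∈ Twu g f u m |
      selmerRank k ((f.scaleRoots D).map (algebraMap k[X] K)) ≤ w m} : Set k[X]).ncard : ℝ) /
      ((Twu g f u m).ncard : ℝ)) atTop (𝓝 1) := by
  obtain ⟨c, hc, hmany⟩ := many hf hu
  have hpos : ∀ᶠ m : ℕ in atTop, 0 < ((Twu g f u m).ncard : ℝ) := by
    filter_upwards [hmany] with m hm
    refine lt_of_lt_of_le ?_ hm
    have : (0 : ℝ) < Nat.card k := by exact_mod_cast Nat.card_pos
    positivity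
  rw [tendsto_order]
  constructor
  · intro a ha
    obtain ⟨s, hs⟩ := (al_sum.tendsto_sum_nat.eventually (lt_mem_nhds ha)).exists
    have h1 : Lw (ind fun i => s ≤ i) < 1 - a := by
      rw [tail]
      have : ∑ i ∈ Finset.range s, wt i / ∑' j, wt j = ∑ i ∈ Finset.range s, al i := rfl
      rw [this]
      linarith
    filter_upwards [hpos, (prop_rank K hf hu fun i => s ≤ i).eventually (gt_mem_nhds h1),
      hw.eventually (eventually_ge_atTop s)] with m hm h2 h3
    have hcov : Twu g f u m ⊆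
        {D ∈ Twu g f u m | selmerRank k ((f.scaleRoots D).map (algebraMap k[X] K)) ≤ w m} ∪
        {D ∈ Twu g f u m | s ≤ selmerRank k ((f.scaleRoots D).map (algebraMap k[X] K))} := by
      intro D hD
      rcases le_total (selmerRank k ((f.scaleRoots D).map (algebraMap k[X] K))) s with h | h
      · exact Or.inl ⟨hD, h.trans h3⟩
      · exact Or.inr ⟨hD, h⟩
    have hfin := twu_fin' hf hu m
    have h4 := (Set.ncard_le_ncard hcov ((hfin.subset fun D hD => hD.1).union
      (hfin.subset fun D hD => hD.1))).trans (Set.ncard_union_le _ _)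
    have h5 : ((Twu g f u m).ncard : ℝ) ≤
        ({D ∈ Twu g f u m | selmerRank k ((f.scaleRoots D).map (algebraMap k[X] K)) ≤ w m} :
          Set k[X]).ncard +
        ({D ∈ Twu g f u m | s ≤ selmerRank k ((f.scaleRoots D).map (algebraMap k[X] K))} :
          Set k[X]).ncard := by exact_mod_cast h4
    rw [div_lt_iff₀ hm] at h2
    rw [lt_div_iff₀ hm]
    linarith
  · intro b hb
    filter_upwards [hpos] with m hm
    refine lt_of_le_of_lt ?_ hb
    rw [div_le_one hm]
    have hsub : {D ∈ Twu g f u m |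
        selmerRank k ((f.scaleRoots D).map (algebraMap k[X] K)) ≤ w m} ⊆ Twu g f u m :=
      fun D hD => hD.1
    exact_mod_cast Set.ncard_le_ncard hsub (twu_fin' hf hu m)

/-- The law. -/
theorem law_rank [Finite k] {g N : ℕ} {r : k[X]} {f : k[X][X]} (hf : Fm g N r f) {u : k}
    (hu : u ≠ 0) (s : ℕ) : Tendsto (fun m => (({D ∈ Twu g f u m |
      selmerRank k ((f.scaleRoots D).map (algebraMap k[X] K)) = s} : Set k[X]).ncard : ℝ) /
      ((Twu g f u m).ncard : ℝ)) atTop (𝓝 (al s)) := by
  have h1 : Lw (ind fun i => i = s) = al s := by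
    rw [Lw_ind, tsum_eq_single s]
    · rw [ind_pos (P := fun i => i = s) rfl, mul_one]
      rfl
    · intro j hj
      rw [ind_neg (P := fun i => i = s) hj, mul_zero]
  rw [← h1]
  exact prop_rank K hf hu fun i => i = s

/-- At most one. -/
theorem le_one_rank [Finite k] {g N : ℕ} {r : k[X]} {f : k[X][X]} (hf : Fm g N r f) {u : k}
    (hu : u ≠ 0) : Tendsto (fun m => (({D ∈ Twu g f u m |
      selmerRank k ((f.scaleRoots D).map (algebraMap k[X] K)) ≤ 1} : Set k[X]).ncard : ℝ) /
      ((Twu g f u m).ncard : ℝ)) atTop (𝓝 (3 * al 0)) := by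
  have h0 : Lw (fun s => ind (fun i => i ≤ 1) s + ind (fun i => 2 ≤ i) s) = 1 := by
    have : (fun s => ind (fun i => i ≤ 1) s + ind (fun i => 2 ≤ i) s) = fun _ => (1 : ℝ) := by
      funext s
      by_cases h : s ≤ 1
      · rw [ind_pos (P := fun i => i ≤ 1) h, ind_neg (P := fun i => 2 ≤ i) (by omega), add_zero]
      · rw [ind_neg (P := fun i => i ≤ 1) h, ind_pos (P := fun i => 2 ≤ i) (by omega), zero_add]
    rw [this]
    unfold Lw
    simp only [mul_one]
    exact div_self tot_pos.ne'
  have hsum : ∀ P : ℕ → Prop, Summable fun s => wt s * ind P s := by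
    intro P
    refine Summable.of_nonneg_of_le (fun s => ?_) (fun s => ?_) wt_sum
    · have := (Run7.h160.PL.wt_pos s).le
      unfold ind
      split_ifs <;> simp [this]
    · have := (Run7.h160.PL.wt_pos s).le
      unfold ind
      split_ifs <;> simp [this]
  rw [Lw_add (hsum _) (hsum _), tail] at h0
  have h1 : ∑ i ∈ Finset.range 2, wt i / ∑' j, wt j = 3 * al 0 := by
    have e : ∑ i ∈ Finset.range 2, wt i / ∑' j, wt j = al 0 + al 1 := by
      rw [Finset.sum_range_succ, Finset.sum_range_one]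
      rfl
    have e1 := al_succ 0
    rw [zero_add] at e1
    rw [e, e1]
    norm_num
    ring
  rw [h1] at h0
  have h2 : Lw (ind fun i => i ≤ 1) = 3 * al 0 := by linarith
  rw [← h2]
  exact prop_rank K hf hu fun i => i ≤ 1

end

end Run7.h711.PL
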