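import Pool.Agent.Run7.h286.PL.AllM
import Pool.Agent.Run7.h286.PL.SelDef
import Pool.Agent.Run7.h886.TG.Port

/-!
# Project PRL (helper711): the law and the moments of `[J(K) : 2 J(K)] · #Sha(J / K)[2]`
-/

set_option autoImplicit false
set_option linter.all false

open Polynomial IsDedekindDomain Filter
open scoped Classical Topology

namespace Run7.h711.PL

open Pool.Agent.Y713.Jac (J)
open Pool.Agent.N352.Sha (UniquelyDivisible ShaTrivial)
open Pool.Agent.N352.PJ (dsc)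
open Run7.h784.TG (Fm fm_scale T_SQF3)
open Run7.h875.TS (sqf)
open Run7.h286.PL (wt Lw sqF rkJ Twu mean_tw prop_tw fINL fMOM)
open Run7.h286.SelDef (ShaTwo twoIndex NoTwoTorsion)

section

/-- `[J(K) : 2 J(K)] · #Sha(J / K)[2]` for the Jacobian `J` of `y ^ 2 = F(x)` over `K = k(t)`. -/
noncomputable def size (k : Type) {K : Type} [Field k] [Field K] [Algebra k[X] K]
    [IsFractionRing k[X] K] (F : K[X]) : ℕ := twoIndex (J 2 F K) * Nat.card (ShaTwo k F)

variable {k : Type} [Field k] (K : Type) [Field K] [Algebra k[X] K] [IsFractionRing k[X] K]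

/-- The facts on one twist. -/
theorem one [Finite k] {g N : ℕ} {r : k[X]} {f : k[X][X]} (hf : Fm g N r f) {u : k} (hu : u ≠ 0)
    {m : ℕ} {D : k[X]} (hD : D ∈ Twu g f u m) :
    size k ((f.scaleRoots D).map (algebraMap k[X] K)) = 2 ^ rkJ K (f.scaleRoots D) ∧
    NoTwoTorsion (J 2 ((f.scaleRoots D).map (algebraMap k[X] K)) K) ∧
    twoIndex (J 2 ((f.scaleRoots D).map (algebraMap k[X] K)) K) ≠ 0 ∧
    (size k ((f.scaleRoots D).map (algebraMap k[X] K)) = 1 →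
      UniquelyDivisible 2 (J 2 ((f.scaleRoots D).map (algebraMap k[X] K)) K) ∧
      ShaTrivial 2 ((f.scaleRoots D).map (algebraMap k[X] K)) k[X]) := by
  obtain ⟨h1, h2⟩ := Run7.h286.SelDef.one_tw hf K hu hD
  have h3 : size k ((f.scaleRoots D).map (algebraMap k[X] K)) =
      Nat.card (Run7.h286.SelDef.Selmer k ((f.scaleRoots D).map (algebraMap k[X] K))) :=
    h2.sequence.symm
  refine ⟨?_, h2.torsion, h2.finite, fun h => ?_⟩
  · rw [h3, h2.order, h1]
  · rw [h3] at h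
    exact ⟨h2.divisible h, h2.sha h⟩

/-- The law. -/
theorem law [Finite k] {g N : ℕ} {r : k[X]} {f : k[X][X]} (hf : Fm g N r f) {u : k} (hu : u ≠ 0)
    (s : ℕ) : Tendsto (fun m => (({D ∈ Twu g f u m |
      size k ((f.scaleRoots D).map (algebraMap k[X] K)) = 2 ^ s} : Set k[X]).ncard : ℝ) /
      ((Twu g f u m).ncard : ℝ)) atTop (𝓝 (wt s / ∑' i, wt i)) := by
  refine (prop_tw fINL hf K hu s).congr fun m => ?_
  congr 3
  ext D
  constructor
  · rintro ⟨h1, h2⟩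
    exact ⟨h1, by rw [(one K hf hu h1).1, h2]⟩
  · rintro ⟨h1, h2⟩
    rw [(one K hf hu h1).1] at h2
    exact ⟨h1, Nat.pow_right_injective le_rfl h2⟩

/-- The mean of a function of the binary logarithm. -/
theorem mean [Finite k] {g N : ℕ} {r : k[X]} {f : k[X][X]} (hf : Fm g N r f) {u : k} (hu : u ≠ 0)
    (ψ : ℕ → ℝ) (φ : ℕ → ℝ) (h : ∀ d, ψ (2 ^ d) = φ d) (hφ : ∃ C y : ℝ, ∀ d, |φ d| ≤ C * y ^ d) :
    Tendsto (fun m => (∑ᶠ D ∈ Twu g f u m, ψ (size k ((f.scaleRoots D).map (algebraMap k[X] K)))) /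
      ((Twu g f u m).ncard : ℝ)) atTop (𝓝 (Lw φ)) := by
  refine (mean_tw fMOM hf K hu φ hφ).congr fun m => ?_
  congr 1
  refine finsum_congr fun D => ?_
  by_cases hD : D ∈ Twu g f u m
  · simp only [hD, finsum_true]
    rw [(one K hf hu hD).1, h]
  · simp only [hD, finsum_false]

/-- The moments. -/
theorem moment [Finite k] {g N : ℕ} {r : k[X]} {f : k[X][X]} (hf : Fm g N r f) {u : k} (hu : u ≠ 0)
    (j : ℕ) : Tendsto (fun m => (∑ᶠ D ∈ Twu g f u m,
      (size k ((f.scaleRoots D).map (algebraMap k[X] K)) : ℝ) ^ j) /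
      ((Twu g f u m).ncard : ℝ)) atTop (𝓝 (∏ i ∈ Finset.Icc 1 j, (1 + (2 : ℝ) ^ i))) := by
  have h1 := mean K hf hu (fun n => (n : ℝ) ^ j) (fun d => ((2 : ℝ) ^ j) ^ d)
    (fun d => by push_cast; rw [← pow_mul, ← pow_mul, mul_comm])
    ⟨1, 2 ^ j, fun d => by rw [one_mul, abs_of_pos (by positivity)]⟩
  rwa [Run7.h547.PL.qid.2.1 j] at h1

/-- The twists are a positive proportion of all polynomials. -/
theorem many [Finite k] {g N : ℕ} {r : k[X]} {f : k[X][X]} (hf : Fm g N r f) {u : k} (hu : u ≠ 0) :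
    ∃ c : ℝ, 0 < c ∧ ∀ᶠ m : ℕ in atTop, c * (Nat.card k : ℝ) ^ m ≤ ((Twu g f u m).ncard : ℝ) := by
  have hf' := fm_scale hf hu
  obtain ⟨hfin, c, hc, N₁, hN₁⟩ := T_SQF3 k hf.two (dsc g (f.scaleRoots (C u))) hf'.fam.sq.ne_zero
  refine ⟨c, hc, ?_⟩
  filter_upwards [eventually_ge_atTop N₁] with m hm
  refine (hN₁ m hm).trans (le_of_eq ?_)
  rw [Run7.h286.PL.twu_eq hf.fam.ht.mon hf.fam.ht.deg hu,
    Set.ncard_image_of_injective _ (Run7.h286.PL.C_mul_inj hu)]

end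

end Run7.h711.PL
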