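import Pool.Agent.Run7.h711.PL.Par

/-!
# Project PRL (helper711): a numerical bound for the tails of the law
-/

set_option autoImplicit false
set_option linter.all false

open Filter
open scoped Topology

namespace Run7.h711.PL

open Run7.h286.PL (wt)

/-- The limit law. -/
noncomputable def al (s : ℕ) : ℝ := wt s / ∑' i, wt i

theorem al_succ (s : ℕ) : al (s + 1) = al s * (2 / (2 ^ (s + 1) - 1)) := by
  unfold al
  rw [Run7.h160.PL.wt_succ]
  ring

theorem al_pos (s : ℕ) : 0 < al s := div_pos (Run7.h160.PL.wt_pos s) tot_pos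

theorem al_sum : HasSum al 1 := by
  have h1 := (wt_sum.hasSum.div_const (∑' i, wt i))
  rwa [div_self tot_pos.ne'] at h1

theorem al_le (s : ℕ) : al (s + 1) * 2 ^ (∑ i ∈ Finset.range (s + 1), i) ≤
    4 * al 0 * (1 - 1 / 2 ^ (s + 1)) := by
  induction s with
  | zero =>
    rw [al_succ]
    have := al_pos 0
    norm_num
    linarith
  | succ s ih =>
    have e0 : (2 : ℝ) ^ (∑ i ∈ Finset.range (s + 1 + 1), i) =
        2 ^ (∑ i ∈ Finset.range (s + 1), i) * 2 ^ (s + 1) := by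
      rw [Finset.sum_range_succ, pow_add]
    rw [al_succ, e0]
    have hX : (2 : ℝ) ≤ 2 ^ (s + 1) := by
      calc (2 : ℝ) = 2 ^ 1 := by norm_num
        _ ≤ 2 ^ (s + 1) := pow_le_pow_right₀ (by norm_num) (by omega)
    have e1 : (2 : ℝ) ^ (s + 1 + 1) = 2 * 2 ^ (s + 1) := by rw [pow_succ]; ring
    rw [e1]
    set X : ℝ := 2 ^ (s + 1) with hXd
    have hp : 0 < 2 * X - 1 := by linarith
    have h0 := al_pos 0
    calc al (s + 1) * (2 / (2 * X - 1)) * (2 ^ (∑ i ∈ Finset.range (s + 1), i) * X) =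
        (al (s + 1) * 2 ^ (∑ i ∈ Finset.range (s + 1), i)) * (2 * X / (2 * X - 1)) := by ring
      _ ≤ (4 * al 0 * (1 - 1 / X)) * (2 * X / (2 * X - 1)) :=
        mul_le_mul_of_nonneg_right ih (by positivity)
      _ ≤ 4 * al 0 * (1 - 1 / (2 * X)) := by
        rw [mul_assoc]
        refine mul_le_mul_of_nonneg_left ?_ (by positivity)
        have hX0 : X ≠ 0 := by positivity
        have e2 : (1 - 1 / X) * (2 * X / (2 * X - 1)) = (2 * X - 2) / (2 * X - 1) := by
          field_simp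
        rw [e2, div_le_iff₀ hp]
        have e3 : (1 - 1 / (2 * X)) * (2 * X - 1) = 2 * X - 2 + 1 / (2 * X) := by
          field_simp
          ring
        rw [e3]
        have : 0 < 1 / (2 * X) := by positivity
        linarith

theorem al_le' {s : ℕ} (hs : 1 ≤ s) : al s ≤
    4 * al 0 / 2 ^ (∑ i ∈ Finset.range s, i) - 4 * al 0 / 2 ^ (∑ i ∈ Finset.range (s + 1), i) := by
  obtain ⟨s, rfl⟩ : ∃ t, s = t + 1 := ⟨s - 1, by omega⟩
  have h := al_le s
  rw [Finset.sum_range_succ (fun i => i) (s + 1), pow_add]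
  set E : ℝ := 2 ^ (∑ i ∈ Finset.range (s + 1), i) with hE
  have hE0 : 0 < E := by positivity
  have hX0 : (0 : ℝ) < 2 ^ (s + 1) := by positivity
  set X : ℝ := 2 ^ (s + 1)
  have e : 4 * al 0 / E - 4 * al 0 / (E * X) = (4 * al 0 * (1 - 1 / X)) / E := by
    field_simp
  rw [e, le_div_iff₀ hE0]
  exact h

theorem part_le {s : ℕ} (hs : 1 ≤ s) (n : ℕ) : ∑ i ∈ Finset.range (s + n), al i ≤
    ∑ i ∈ Finset.range s, al i + (4 * al 0 / 2 ^ (∑ i ∈ Finset.range s, i) -
      4 * al 0 / 2 ^ (∑ i ∈ Finset.range (s + n), i)) := by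
  induction n with
  | zero => simp
  | succ n ih =>
    have h := al_le' (show 1 ≤ s + n by omega)
    rw [← add_assoc, Finset.sum_range_succ (fun i => al i)]
    linarith

theorem tail_le (s : ℕ) : (1 - ∑ i ∈ Finset.range s, al i) * 2 ^ (s * (s - 1) / 2) ≤ 1 := by
  rcases Nat.eq_zero_or_pos s with rfl | hs
  · simp
  have h4 : 4 * al 0 ≤ 1 := by
    have h1 := Run7.h160.PL.num.2.2.2.1
    rw [abs_lt] at h1
    have h2 : al 0 = 1 / ∑' i, wt i := by
      unfold al
      rw [Run7.h160.PL.wt_zero]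
    rw [h2, mul_one_div, div_le_one tot_pos]
    linarith [h1.1]
  rw [← Finset.sum_range_id]
  have h1 : (1 : ℝ) ≤ ∑ i ∈ Finset.range s, al i + 4 * al 0 / 2 ^ (∑ i ∈ Finset.range s, i) := by
    refine le_of_tendsto' ((tendsto_add_atTop_iff_nat s).2 al_sum.tendsto_sum_nat) fun n => ?_
    rw [add_comm n s]
    refine (part_le hs n).trans ?_
    have : 0 ≤ 4 * al 0 / 2 ^ (∑ i ∈ Finset.range (s + n), i) := by
      have := (al_pos 0).le
      positivity
    linarith
  have hE : (0 : ℝ) < 2 ^ (∑ i ∈ Finset.range s, i) := by positivity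
  have h2 : 1 - ∑ i ∈ Finset.range s, al i ≤ 4 * al 0 / 2 ^ (∑ i ∈ Finset.range s, i) := by
    linarith
  calc (1 - ∑ i ∈ Finset.range s, al i) * 2 ^ (∑ i ∈ Finset.range s, i) ≤
      4 * al 0 / 2 ^ (∑ i ∈ Finset.range s, i) * 2 ^ (∑ i ∈ Finset.range s, i) :=
        mul_le_mul_of_nonneg_right h2 hE.le
    _ = 4 * al 0 := div_mul_cancel₀ _ hE.ne'
    _ ≤ 1 := h4

end Run7.h711.PL
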