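import Pool.Agent.Run7.h711.PL.Tail
import Pool.Agent.Run7.h886.PL.Fin

/-!
# Projects PRL and JPL (helper711): the total defect of several surfaces
-/

set_option autoImplicit false
set_option linter.all false

open Polynomial IsDedekindDomain Filter
open scoped Classical Topology

namespace Run7.h711.PL

open Pool.Agent.Y713.Jac (J)
open Pool.Agent.N352.Sha (UniquelyDivisible ShaTrivial)
open Run7.h784.TG (Fm)
open Run7.h784.JP (JF TwJ)
open Run7.h286.PL (wt Lw rkJ Twu)
open Run7.h286.SelDef (ShaTwo twoIndex NoTwoTorsion)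

section

variable {k : Type} [Field k] {n : ℕ} (K : Type) [Field K] [Algebra k[X] K] [IsFractionRing k[X] K]

theorem al_summable : Summable al := al_sum.summable

/-- The facts on one twist. -/
theorem jone [Finite k] {g N : Fin n → ℕ} {r : Fin n → k[X]} {f : Fin n → k[X][X]}
    (h : JF g N r f) {u : k} (hu : u ≠ 0) {m : ℕ} {D : k[X]} (hD : D ∈ TwJ g f u m) (i : Fin n) :
    size k (((f i).scaleRoots D).map (algebraMap k[X] K)) = 2 ^ rkJ K ((f i).scaleRoots D) ∧
    NoTwoTorsion (J 2 (((f i).scaleRoots D).map (algebraMap k[X] K)) K) ∧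
    twoIndex (J 2 (((f i).scaleRoots D).map (algebraMap k[X] K)) K) ≠ 0 ∧
    (size k (((f i).scaleRoots D).map (algebraMap k[X] K)) = 1 →
      UniquelyDivisible 2 (J 2 (((f i).scaleRoots D).map (algebraMap k[X] K)) K) ∧
      ShaTrivial 2 (((f i).scaleRoots D).map (algebraMap k[X] K)) k[X]) :=
  one K (h.fm i) hu (show D ∈ Twu (g i) (f i) u m from ⟨hD.1, hD.2.1, hD.2.2.1, hD.2.2.2 i⟩)

/-- The product of the numbers `[J_i(K) : 2 J_i(K)] · #Sha(J_i)[2]`. -/
noncomputable def total (f : Fin n → k[X][X]) (D : k[X]) : ℕ :=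
  ∏ i, size k (((f i).scaleRoots D).map (algebraMap k[X] K))

theorem total_eq [Finite k] {g N : Fin n → ℕ} {r : Fin n → k[X]} {f : Fin n → k[X][X]}
    (h : JF g N r f) {u : k} (hu : u ≠ 0) {m : ℕ} {D : k[X]} (hD : D ∈ TwJ g f u m) :
    total K f D = 2 ^ (∑ i, rkJ K ((f i).scaleRoots D)) := by
  unfold total
  rw [Finset.prod_congr rfl fun i _ => (jone K h hu hD i).1, Finset.prod_pow_eq_pow_sum]

/-- The joint mean. -/
noncomputable def JL (φ : (Fin n → ℕ) → ℝ) : ℝ := ∑' d : Fin n → ℕ, φ d * ∏ i, al (d i)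

theorem jmean [Finite k] (hn : 1 ≤ n) {g N : Fin n → ℕ} {r : Fin n → k[X]} {f : Fin n → k[X][X]}
    (h : JF g N r f) {u : k} (hu : u ≠ 0) (φ : (Fin n → ℕ) → ℝ)
    (hφ : ∃ C y : ℝ, ∀ d, |φ d| ≤ C * y ^ (∑ i, d i)) :
    Tendsto (fun m => (∑ᶠ D ∈ TwJ g f u m, φ (fun i => rkJ K ((f i).scaleRoots D))) /
      ((TwJ g f u m).ncard : ℝ)) atTop (𝓝 (JL φ)) := by
  haveI : Nonempty (Fin n) := ⟨⟨0, hn⟩⟩
  exact Run7.h886.PL.mean_of K h hu (fun D i => rkJ K ((f i).scaleRoots D))
    (fun _ _ _ _ => rfl) φ hφ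

/-- The indicator function of a property. -/
noncomputable def jind (P : (Fin n → ℕ) → Prop) (d : Fin n → ℕ) : ℝ := if P d then 1 else 0

theorem jind_pos {P : (Fin n → ℕ) → Prop} {d : Fin n → ℕ} (h : P d) : jind P d = 1 := if_pos h

theorem jind_neg {P : (Fin n → ℕ) → Prop} {d : Fin n → ℕ} (h : ¬ P d) : jind P d = 0 := if_neg h

/-- The proportion of a property is the mean of its indicator function. -/
theorem jprop [Finite k] (hn : 1 ≤ n) {g N : Fin n → ℕ} {r : Fin n → k[X]} {f : Fin n → k[X][X]}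
    (h : JF g N r f) {u : k} (hu : u ≠ 0) (P : (Fin n → ℕ) → Prop) :
    Tendsto (fun m => (({D ∈ TwJ g f u m | P (fun i => rkJ K ((f i).scaleRoots D))} :
      Set k[X]).ncard : ℝ) / ((TwJ g f u m).ncard : ℝ)) atTop
      (𝓝 (JL (jind P))) := by
  have h1 := jmean K hn h hu (jind P) ⟨1, 1, fun d => by
    unfold jind
    split_ifs <;> simp⟩
  refine h1.congr fun m => ?_
  congr 1
  exact Run7.h886.PL.ncard_sep (Run7.h784.JP.twJ_fin h hu m)
    fun D => P (fun i => rkJ K ((f i).scaleRoots D))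

theorem JL_prod (a : ℕ → ℝ) (h0 : ∀ d, 0 ≤ a d) (hs : Summable fun d => a d * al d) :
    JL (n := n) (fun d => ∏ i, a (d i)) = (∑' d, a d * al d) ^ n := by
  unfold JL
  have h1 := Run7.h784.JP.tsum_pi (fun (_ : Fin n) d => a d * al d)
    (fun _ d => mul_nonneg (h0 d) (al_pos d).le) (fun _ => hs)
  rw [Finset.prod_const, Finset.card_univ, Fintype.card_fin] at h1
  rw [← h1]
  refine tsum_congr fun d => ?_
  rw [Finset.prod_mul_distrib]

theorem JL_one : JL (n := n) (fun _ => 1) = 1 := by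
  have h1 := JL_prod (n := n) (fun _ => 1) (fun _ => zero_le_one) (by simpa using al_summable)
  simp only [Finset.prod_const_one, one_mul] at h1
  rw [h1, al_sum.tsum_eq, one_pow]

/-- The joint law. -/
theorem jlaw [Finite k] (hn : 1 ≤ n) {g N : Fin n → ℕ} {r : Fin n → k[X]} {f : Fin n → k[X][X]}
    (h : JF g N r f) {u : k} (hu : u ≠ 0) (s : Fin n → ℕ) :
    Tendsto (fun m => (({D ∈ TwJ g f u m | ∀ i,
      size k (((f i).scaleRoots D).map (algebraMap k[X] K)) = 2 ^ s i} : Set k[X]).ncard : ℝ) /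
      ((TwJ g f u m).ncard : ℝ)) atTop (𝓝 (∏ i, al (s i))) := by
  have h1 : JL (jind fun d : Fin n → ℕ => d = s) = ∏ i, al (s i) := by
    unfold JL
    rw [tsum_eq_single s]
    · rw [jind_pos (P := fun d : Fin n → ℕ => d = s) rfl, one_mul]
    · intro d hd
      rw [jind_neg (P := fun d : Fin n → ℕ => d = s) hd, zero_mul]
  rw [← h1]
  refine (jprop K hn h hu fun d => d = s).congr fun m => ?_
  congr 3
  ext D
  refine and_congr_right fun hD => ?_
  constructor
  · intro h2 i
    rw [(jone K h hu hD i).1]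
    exact congrArg (fun t => 2 ^ t) (congrFun h2 i)
  · intro h2
    funext i
    have h3 := h2 i
    rw [(jone K h hu hD i).1] at h3
    exact Nat.pow_right_injective le_rfl h3

/-- All defects are zero. -/
theorem jzero [Finite k] (hn : 1 ≤ n) {g N : Fin n → ℕ} {r : Fin n → k[X]} {f : Fin n → k[X][X]}
    (h : JF g N r f) {u : k} (hu : u ≠ 0) :
    Tendsto (fun m => (({D ∈ TwJ g f u m | total K f D = 1} : Set k[X]).ncard : ℝ) /
      ((TwJ g f u m).ncard : ℝ)) atTop (𝓝 (al 0 ^ n)) := by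
  have h1 := jlaw K hn h hu fun _ => 0
  rw [Finset.prod_const, Finset.card_univ, Fintype.card_fin] at h1
  refine h1.congr fun m => ?_
  congr 3
  ext D
  refine and_congr_right fun hD => ?_
  unfold total
  constructor
  · intro h2
    exact Finset.prod_eq_one fun i _ => by rw [h2 i, pow_zero]
  · intro h2 i
    have h3 := Finset.prod_eq_one_iff.1 h2 i (Finset.mem_univ i)
    rw [h3, pow_zero]

/-- The moments. -/
theorem jmoment [Finite k] (hn : 1 ≤ n) {g N : Fin n → ℕ} {r : Fin n → k[X]}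
    {f : Fin n → k[X][X]} (h : JF g N r f) {u : k} (hu : u ≠ 0) (j : ℕ) :
    Tendsto (fun m => (∑ᶠ D ∈ TwJ g f u m, (total K f D : ℝ) ^ j) /
      ((TwJ g f u m).ncard : ℝ)) atTop (𝓝 ((∏ i ∈ Finset.Icc 1 j, (1 + (2 : ℝ) ^ i)) ^ n)) := by
  have h1 := jmean K hn h hu (fun d => ∏ i, ((2 : ℝ) ^ j) ^ d i) ⟨1, 2 ^ j, fun d => by
    rw [one_mul, Finset.prod_pow_eq_pow_sum, abs_of_pos (by positivity)]⟩
  have h2 : ∑' d, ((2 : ℝ) ^ j) ^ d * al d = ∏ i ∈ Finset.Icc 1 j, (1 + (2 : ℝ) ^ i) := by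
    rw [← Run7.h547.PL.qid.2.1 j]
    unfold Lw al
    rw [← tsum_div_const]
    exact tsum_congr fun d => by ring
  have hs : Summable fun d => ((2 : ℝ) ^ j) ^ d * al d := by
    have := (Run7.h547.PL.qid.1 ((2 : ℝ) ^ j)).div_const (∑' i, wt i)
    refine this.congr fun d => ?_
    unfold al
    ring
  rw [JL_prod (fun d => ((2 : ℝ) ^ j) ^ d) (fun d => by positivity) hs, h2] at h1
  refine h1.congr fun m => ?_
  congr 1
  refine finsum_mem_congr rfl fun D hD => ?_
  rw [total_eq K h hu hD, Finset.prod_pow_eq_pow_sum]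
  push_cast
  rw [← pow_mul, ← pow_mul, mul_comm]

/-- Many twists. -/
theorem jmany [Finite k] {g N : Fin n → ℕ} {r : Fin n → k[X]} {f : Fin n → k[X][X]}
    (h : JF g N r f) {u : k} (hu : u ≠ 0) : ∃ c : ℝ, 0 < c ∧ ∀ᶠ m : ℕ in atTop,
      c * (Nat.card k : ℝ) ^ m ≤ ((TwJ g f u m).ncard : ℝ) := Run7.h886.PL.size_one h hu

/-- Density one. -/
theorem jdens [Finite k] (hn : 1 ≤ n) {g N : Fin n → ℕ} {r : Fin n → k[X]}
    {f : Fin n → k[X][X]} (h : JF g N r f) {u : k} (hu : u ≠ 0) (w : ℕ → ℕ)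
    (hw : Tendsto w atTop atTop) :
    Tendsto (fun m => (({D ∈ TwJ g f u m | total K f D ≤ 2 ^ w m} : Set k[X]).ncard : ℝ) /
      ((TwJ g f u m).ncard : ℝ)) atTop (𝓝 1) := by
  obtain ⟨c, hc, hmany⟩ := jmany h hu
  have hpos : ∀ᶠ m : ℕ in atTop, 0 < ((TwJ g f u m).ncard : ℝ) := by
    filter_upwards [hmany] with m hm
    refine lt_of_lt_of_le ?_ hm
    have : (0 : ℝ) < Nat.card k := by exact_mod_cast Nat.card_pos
    positivity
  set M : ℝ := (∏ i ∈ Finset.Icc 1 1, (1 + (2 : ℝ) ^ i)) ^ n with hM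
  have hM0 : 0 < M := by positivity
  have hlow : Tendsto (fun m => 1 - (M + 1) / 2 ^ w m) atTop (𝓝 1) := by
    have h1 : Tendsto (fun m => (M + 1) / (2 : ℝ) ^ w m) atTop (𝓝 0) :=
      ((tendsto_pow_atTop_atTop_of_one_lt (by norm_num : (1 : ℝ) < 2)).comp hw).const_div_atTop _
    simpa using h1.const_sub 1
  refine tendsto_of_tendsto_of_tendsto_of_le_of_le' hlow tendsto_const_nhds ?_ ?_
  · filter_upwards [hpos, (jmoment K hn h hu 1).eventually (gt_mem_nhds (lt_add_one M))] with m hm h2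
    rw [div_lt_iff₀ hm] at h2
    have hfin := Run7.h784.JP.twJ_fin h hu m
    set A : Set k[X] := {D ∈ TwJ g f u m | total K f D ≤ 2 ^ w m} with hA
    set B : Set k[X] := {D ∈ TwJ g f u m | 2 ^ w m < total K f D} with hB
    have hAB : (A.ncard : ℝ) + B.ncard = (TwJ g f u m).ncard := by
      have h3 : A ∪ B = TwJ g f u m := by
        ext D
        constructor
        · rintro (h | h)
          · exact h.1
          · exact h.1
        · intro h
          rcases le_or_gt (total K f D) (2 ^ w m) with h4 | h4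
          · exact Or.inl ⟨h, h4⟩
          · exact Or.inr ⟨h, h4⟩
      have h4 : Disjoint A B := Set.disjoint_left.2 fun D h5 h6 => absurd h5.2 (not_le.2 h6.2)
      have h5 := Set.ncard_union_eq h4 (hfin.subset fun D h => h.1) (hfin.subset fun D h => h.1)
      rw [h3] at h5
      exact_mod_cast h5.symm
    have hBle : (B.ncard : ℝ) * 2 ^ w m ≤ ∑ᶠ D ∈ TwJ g f u m, (total K f D : ℝ) ^ 1 := by
      rw [finsum_mem_eq_finite_toFinset_sum _ hfin]
      have hBf : B.Finite := hfin.subset fun D h => h.1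
      have h3 : (B.ncard : ℝ) * 2 ^ w m = ∑ D ∈ hBf.toFinset, (2 : ℝ) ^ w m := by
        rw [Finset.sum_const, nsmul_eq_mul, Set.ncard_eq_toFinset_card B hBf]
      rw [h3]
      refine (Finset.sum_le_sum (g := fun D => (total K f D : ℝ) ^ 1) fun D hD => ?_).trans
        (Finset.sum_le_sum_of_subset_of_nonneg (fun D hD => ?_) fun D _ _ => by positivity)
      · rw [Set.Finite.mem_toFinset] at hD
        rw [pow_one]
        exact_mod_cast hD.2.le
      · rw [Set.Finite.mem_toFinset] at hD ⊢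
        exact hD.1
    have hE : (0 : ℝ) < 2 ^ w m := by positivity
    rw [le_div_iff₀ hm, sub_mul, one_mul, div_mul_eq_mul_div, sub_le_iff_le_add, ← hAB]
    have h4 : (B.ncard : ℝ) ≤ (M + 1) * (TwJ g f u m).ncard / 2 ^ w m := by
      rw [le_div_iff₀ hE]
      exact hBle.trans h2.le
    rw [hAB]
    linarith
  · filter_upwards [hpos] with m hm
    rw [div_le_one hm]
    have hsub : {D ∈ TwJ g f u m | total K f D ≤ 2 ^ w m} ⊆ TwJ g f u m := fun D hD => hD.1
    exact_mod_cast Set.ncard_le_ncard hsub (Run7.h784.JP.twJ_fin h hu m)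

end

/-- The parity of a sum of independent coordinates. -/
theorem JL_even {n : ℕ} : JL (jind fun d : Fin (n + 1) → ℕ => Even (∑ i, d i)) = 1 / 2 := by
  have hb : ∀ P : ℕ → Prop, ∀ x, 0 ≤ ind P x ∧ ind P x ≤ 1 := by
    intro P x
    unfold ind
    split_ifs <;> norm_num
  have he : ∀ c : ℕ, ∑' x : ℕ, ind (fun x => Even (x + c)) x * al x = 1 / 2 := by
    intro c
    have h1 : ∑' x : ℕ, ind Even x * al x = 1 / 2 := by
      rw [← half, Lw_ind]
      refine tsum_congr fun x => ?_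
      rw [mul_comm]
      rfl
    by_cases hc : Even c
    · rw [← h1]
      refine tsum_congr fun x => ?_
      have h2 : Even (x + c) ↔ Even x := by
        rw [Nat.even_add]
        simp [hc]
      congr 1
      by_cases hx : Even x
      · rw [ind_pos hx, ind_pos (P := fun x => Even (x + c)) (h2.2 hx)]
      · rw [ind_neg hx, ind_neg (P := fun x => Even (x + c)) fun h => hx (h2.1 h)]
    · have h2 : ∑' x : ℕ, ind (fun x => Even (x + c)) x * al x =
          ∑' x : ℕ, (al x - ind Even x * al x) := by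
        refine tsum_congr fun x => ?_
        have h3 : Even (x + c) ↔ ¬ Even x := by
          rw [Nat.even_add]
          simp [hc]
        by_cases hx : Even x
        · rw [ind_pos hx, ind_neg (P := fun x => Even (x + c)) fun h => h3.1 h hx]
          ring
        · rw [ind_neg hx, ind_pos (P := fun x => Even (x + c)) (h3.2 hx)]
          ring
      have hs : Summable fun x : ℕ => ind Even x * al x :=
        Summable.of_nonneg_of_le (fun x => mul_nonneg (hb _ x).1 (al_pos x).le)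
          (fun x => mul_le_of_le_one_left (al_pos x).le (hb _ x).2) al_summable
      rw [h2, al_summable.tsum_sub hs, al_sum.tsum_eq, h1]
      norm_num
  unfold JL
  rw [← (Fin.consEquiv fun _ : Fin (n + 1) => ℕ).tsum_eq]
  have h3 : ∀ x : ℕ × (Fin n → ℕ), jind (fun d : Fin (n + 1) → ℕ => Even (∑ i, d i))
      ((Fin.consEquiv fun _ : Fin (n + 1) => ℕ) x) *
      ∏ i, al ((Fin.consEquiv fun _ : Fin (n + 1) => ℕ) x i) =
      (ind (fun t => Even (t + ∑ i, x.2 i)) x.1 * al x.1) * ∏ i, al (x.2 i) := by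
    rintro ⟨x, y⟩
    have e0 : (Fin.consEquiv fun _ : Fin (n + 1) => ℕ) (x, y) = Fin.cons x y := rfl
    have e1 : jind (fun d : Fin (n + 1) → ℕ => Even (∑ i, d i)) (Fin.cons x y) =
        ind (fun t => Even (t + ∑ i, y i)) x := by
      have e2 : ∑ i, (Fin.cons x y : Fin (n + 1) → ℕ) i = x + ∑ i, y i := by
        rw [Fin.sum_univ_succ]
        simp only [Fin.cons_zero, Fin.cons_succ]
      by_cases hx : Even (x + ∑ i, y i)
      · rw [ind_pos (P := fun t => Even (t + ∑ i, y i)) hx,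
          jind_pos (P := fun d : Fin (n + 1) → ℕ => Even (∑ i, d i))]
        rw [e2]
        exact hx
      · rw [ind_neg (P := fun t => Even (t + ∑ i, y i)) hx,
          jind_neg (P := fun d : Fin (n + 1) → ℕ => Even (∑ i, d i))]
        rw [e2]
        exact hx
    rw [e0, e1, Fin.prod_univ_succ]
    simp only [Fin.cons_zero, Fin.cons_succ]
    ring
  rw [tsum_congr h3]
  have hsp : Summable fun y : Fin n → ℕ => ∏ i, al (y i) :=
    Run7.h784.JP.summable_pi (fun (_ : Fin n) d => al d) (fun _ d => (al_pos d).le)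
      (fun _ => al_summable)
  have hsum : Summable fun x : (Fin n → ℕ) × ℕ =>
      (ind (fun t => Even (t + ∑ i, x.1 i)) x.2 * al x.2) * ∏ i, al (x.1 i) := by
    have h4 : Summable fun x : (Fin n → ℕ) × ℕ => (∏ i, al (x.1 i)) * al x.2 :=
      hsp.mul_of_nonneg al_summable
        (fun y => Finset.prod_nonneg fun i _ => (al_pos _).le) (fun d => (al_pos d).le)
    refine Summable.of_nonneg_of_le (fun x => ?_) (fun x => ?_) h4
    · exact mul_nonneg (mul_nonneg (hb _ _).1 (al_pos _).le)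
        (Finset.prod_nonneg fun i _ => (al_pos _).le)
    · rw [mul_comm (∏ i, al (x.1 i))]
      exact mul_le_mul_of_nonneg_right (mul_le_of_le_one_left (al_pos _).le (hb _ _).2)
        (Finset.prod_nonneg fun i _ => (al_pos _).le)
  have h7 := (Equiv.prodComm (Fin n → ℕ) ℕ).tsum_eq fun x : ℕ × (Fin n → ℕ) =>
    (ind (fun t => Even (t + ∑ i, x.2 i)) x.1 * al x.1) * ∏ i, al (x.2 i)
  rw [← h7]
  simp only [Equiv.prodComm_apply, Prod.fst_swap, Prod.snd_swap]
  rw [hsum.tsum_prod]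
  have h5 : ∀ y : Fin n → ℕ, ∑' x : ℕ, (ind (fun t => Even (t + ∑ i, y i)) x * al x) *
      ∏ i, al (y i) = 1 / 2 * ∏ i, al (y i) := by
    intro y
    rw [tsum_mul_right, he]
  have h6 : ∑' y : Fin n → ℕ, ∏ i, al (y i) = 1 := by
    have := JL_one (n := n)
    unfold JL at this
    simpa using this
  rw [tsum_congr h5, tsum_mul_left, h6, mul_one]

section

variable {k : Type} [Field k] {n : ℕ} (K : Type) [Field K] [Algebra k[X] K] [IsFractionRing k[X] K]

/-- The parity of the total defect. -/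
theorem jparity [Finite k] (hn : 1 ≤ n) {g N : Fin n → ℕ} {r : Fin n → k[X]}
    {f : Fin n → k[X][X]} (h : JF g N r f) {u : k} (hu : u ≠ 0) :
    Tendsto (fun m => (({D ∈ TwJ g f u m | IsSquare (total K f D)} : Set k[X]).ncard : ℝ) /
      ((TwJ g f u m).ncard : ℝ)) atTop (𝓝 (1 / 2)) := by
  have h1 : JL (jind fun d : Fin n → ℕ => Even (∑ i, d i)) = 1 / 2 := by
    obtain ⟨n, rfl⟩ : ∃ j, n = j + 1 := ⟨n - 1, by omega⟩
    exact JL_even
  rw [← h1]
  refine (jprop K hn h hu fun d => Even (∑ i, d i)).congr fun m => ?_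
  congr 3
  ext D
  refine and_congr_right fun hD => ?_
  rw [total_eq K h hu hD, sq_two]

end

end Run7.h711.PL
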